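import Mathlib
import Pool.Agent.Lib.MP_7c08ba_nt.RZ.StS7

set_option autoImplicit false

/-!
(S3) the infinite sums decrease.
-/

namespace Pool.Agent.Lib.MP_7c08ba_nt

namespace RZ

open MeasureTheory Set

namespace AntA

theorem pos_base {n m : ℕ} (_h : m < n) {x : ℝ} (hx : x ∈ Icc (0 : ℝ) 1) :
    (n : ℝ) - m ≤ n - m * x := by
  have h1 : (0 : ℝ) ≤ m := Nat.cast_nonneg m
  nlinarith [hx.2]

theorem sub_pos' {n m : ℕ} (h : m < n) : (1 : ℝ) ≤ (n : ℝ) - m := by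
  have : (m : ℝ) + 1 ≤ n := by exact_mod_cast h
  linarith

theorem cont {n m : ℕ} (h : m < n) (r : ℕ) : ContinuousOn (fun x : ℝ =>
    x ^ r * (1 - x) ^ (0 + r) * (((n : ℝ) - m * x) ^ (0 + r + 1))⁻¹) (uIcc 0 1) := by
  refine ContinuousOn.mul (by fun_prop) (ContinuousOn.inv₀ (by fun_prop) fun x hx => ?_)
  rw [uIcc_of_le zero_le_one] at hx
  have h1 := pos_base h hx
  have h2 := sub_pos' h
  exact pow_ne_zero _ (by linarith)

theorem JI_nonneg {n m : ℕ} (h : m < n) (r : ℕ) : 0 ≤ JI 0 r n m := by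
  unfold JI
  refine intervalIntegral.integral_nonneg zero_le_one fun x hx => ?_
  have h1 := pos_base h hx
  have h2 := sub_pos' h
  have h3 : 0 < (n : ℝ) - m * x := by linarith
  have h4 : 0 ≤ 1 - x := by linarith [hx.2]
  have h5 := hx.1
  positivity

theorem JI_step {n m : ℕ} (h : m < n) (r : ℕ) : (m : ℝ) * JI 0 (r + 1) n m ≤ JI 0 r n m := by
  unfold JI
  rw [← intervalIntegral.integral_const_mul]
  refine intervalIntegral.integral_mono_on zero_le_one
    (((cont h (r + 1)).intervalIntegrable).const_mul _) ((cont h r).intervalIntegrable)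
    fun x hx => ?_
  have h1 := pos_base h hx
  have h2 := sub_pos' h
  have h3 : 0 < (n : ℝ) - m * x := by linarith
  have h4 : 0 ≤ 1 - x := by linarith [hx.2]
  have h5 := hx.1
  have h6 : (0 : ℝ) ≤ m := Nat.cast_nonneg m
  have h7 : (m : ℝ) * (x * (1 - x)) ≤ (n : ℝ) - m * x := by
    nlinarith [mul_nonneg h6 h4, mul_nonneg (mul_nonneg h6 h4) h4]
  have e : (m : ℝ) * (x ^ (r + 1) * (1 - x) ^ (0 + (r + 1)) *
      (((n : ℝ) - m * x) ^ (0 + (r + 1) + 1))⁻¹) =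
      (x ^ r * (1 - x) ^ (0 + r) * (((n : ℝ) - m * x) ^ (0 + r + 1))⁻¹) *
        (((m : ℝ) * (x * (1 - x))) / ((n : ℝ) - m * x)) := by
    rw [show 0 + (r + 1) = r + 1 by ring, show 0 + r = r by ring]
    field_simp
    ring
  rw [e]
  refine mul_le_of_le_one_right (by positivity) ?_
  rwa [div_le_one h3]

theorem JI_le {n m : ℕ} (h : m < n) (r : ℕ) : JI 0 r n m ≤ (((n : ℝ) - m) ^ (r + 1))⁻¹ := by
  have h2 := sub_pos' h
  have e : (((n : ℝ) - m) ^ (r + 1))⁻¹ = ∫ _ in (0 : ℝ)..1, (((n : ℝ) - m) ^ (r + 1))⁻¹ := by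
    rw [intervalIntegral.integral_const]
    simp
  unfold JI
  rw [e]
  refine intervalIntegral.integral_mono_on zero_le_one ((cont h r).intervalIntegrable)
    intervalIntegrable_const fun x hx => ?_
  have h1 := pos_base h hx
  have h3 : 0 < (n : ℝ) - m * x := by linarith
  have h4 : 0 ≤ 1 - x := by linarith [hx.2]
  have h5 := hx.1
  rw [show 0 + r = r by ring]
  have h6 : x ^ r * (1 - x) ^ r ≤ 1 := by
    have a1 : x ^ r ≤ 1 := pow_le_one₀ h5 hx.2
    have a2 : (1 - x) ^ r ≤ 1 := pow_le_one₀ h4 (by linarith)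
    have a3 : 0 ≤ (1 - x) ^ r := by positivity
    nlinarith
  have h7 : (((n : ℝ) - m * x) ^ (r + 1))⁻¹ ≤ (((n : ℝ) - m) ^ (r + 1))⁻¹ := by
    refine inv_anti₀ (by positivity) ?_
    exact pow_le_pow_left₀ (by linarith) h1 _
  calc x ^ r * (1 - x) ^ r * (((n : ℝ) - m * x) ^ (r + 1))⁻¹
      ≤ 1 * (((n : ℝ) - m * x) ^ (r + 1))⁻¹ := by gcongr
    _ ≤ _ := by rw [one_mul]; exact h7

theorem abs_rn (D n : ℕ) : |rn D n| ≤ n := by
  unfold rn
  push_cast
  refine le_trans (Finset.abs_sum_le_sum_abs _ _) ?_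
  refine le_trans (Finset.sum_le_card_nsmul _ _ 1 fun d _ => ?_) ?_
  · rcases jacobiSym.trichotomy (d : ℤ) D with h | h | h <;> rw [h] <;> norm_num
  · rw [nsmul_eq_mul, mul_one]
    exact_mod_cast Nat.card_divisors_le_self n

/-- The terms. -/
noncomputable def tm (D m r n : ℕ) : ℝ :=
  if m < n then rn D n * rn D (n - m) * (m : ℝ) ^ (r + 1) * JI 0 r n m else 0

theorem tm_step {D m : ℕ} (hpos : ∀ n : ℕ, 1 ≤ n → 0 ≤ rn D n) (r n : ℕ) :
    tm D m (r + 1) n ≤ tm D m r n := by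
  unfold tm
  split_ifs with h
  · have h1 := hpos n (by omega)
    have h2 := hpos (n - m) (by omega)
    have h3 := JI_step h r
    have e : rn D n * rn D (n - m) * (m : ℝ) ^ (r + 1 + 1) * JI 0 (r + 1) n m =
        rn D n * rn D (n - m) * (m : ℝ) ^ (r + 1) * ((m : ℝ) * JI 0 (r + 1) n m) := by ring
    rw [e]
    exact mul_le_mul_of_nonneg_left h3 (by positivity)
  · exact le_rfl

theorem tm_nonneg {D m : ℕ} (hpos : ∀ n : ℕ, 1 ≤ n → 0 ≤ rn D n) (r n : ℕ) : 0 ≤ tm D m r n := by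
  unfold tm
  split_ifs with h
  · have h1 := hpos n (by omega)
    have h2 := hpos (n - m) (by omega)
    have h3 := JI_nonneg h r
    positivity
  · exact le_rfl

theorem tm_summable {D m : ℕ} (hm : 1 ≤ m) (hpos : ∀ n : ℕ, 1 ≤ n → 0 ≤ rn D n) {r : ℕ}
    (hr : 4 ≤ r) : Summable (tm D m r) := by
  have hs : Summable fun k : ℕ => ((m : ℝ) ^ (r + 1) * (m + 1)) * (((k : ℝ) + 1) ^ 2)⁻¹ := by
    have h := (summable_nat_add_iff 1).2 (Real.summable_nat_pow_inv.2 one_lt_two)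
    refine Summable.mul_left _ (h.congr fun n => ?_)
    push_cast
    rfl
  rw [← summable_nat_add_iff (m + 1)]
  refine Summable.of_nonneg_of_le (fun k => tm_nonneg hpos r _) (fun k => ?_) hs
  have h : m < k + (m + 1) := by omega
  unfold tm
  rw [if_pos h]
  have e1 : k + (m + 1) - m = k + 1 := by omega
  have e2 : ((k + (m + 1) : ℕ) : ℝ) - m = (k : ℝ) + 1 := by
    push_cast
    ring
  have h1 := hpos (k + (m + 1)) (by omega)
  have h2 := hpos (k + 1) (by omega)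
  have h3 := JI_le h r
  have h4 := JI_nonneg h r
  have h5 := (le_abs_self _).trans (abs_rn D (k + (m + 1)))
  have h6 := (le_abs_self _).trans (abs_rn D (k + 1))
  rw [e2] at h3
  rw [e1]
  have hk : (0 : ℝ) ≤ k := Nat.cast_nonneg k
  have hm' : (1 : ℝ) ≤ m := by exact_mod_cast hm
  have h7 : ((k + (m + 1) : ℕ) : ℝ) ≤ (m + 1) * ((k : ℝ) + 1) := by
    push_cast
    nlinarith
  have h8 : (((k : ℝ) + 1) ^ (r + 1))⁻¹ ≤ (((k : ℝ) + 1) ^ 4)⁻¹ := by
    refine inv_anti₀ (by positivity) (pow_le_pow_right₀ (by linarith) (by omega))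
  calc rn D (k + (m + 1)) * rn D (k + 1) * (m : ℝ) ^ (r + 1) * JI 0 r (k + (m + 1)) m
      ≤ ((m + 1) * ((k : ℝ) + 1)) * ((k : ℝ) + 1) * (m : ℝ) ^ (r + 1) *
        (((k : ℝ) + 1) ^ 4)⁻¹ := by
        push_cast at h5 h6 h7
        gcongr
        · linarith
        · exact h3.trans h8
    _ = ((m : ℝ) ^ (r + 1) * (m + 1)) * (((k : ℝ) + 1) ^ 2)⁻¹ := by
        have : (k : ℝ) + 1 ≠ 0 := by positivity
        field_simp

theorem tsum_anti {D m : ℕ} (hm : 1 ≤ m) (hpos : ∀ n : ℕ, 1 ≤ n → 0 ≤ rn D n) {r r' : ℕ}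
    (hr : 4 ≤ r) (h : r ≤ r') : ∑' n, tm D m r' n ≤ ∑' n, tm D m r n := by
  refine (tm_summable hm hpos (hr.trans h)).tsum_le_tsum (fun n => ?_) (tm_summable hm hpos hr)
  exact antitone_nat_of_succ_le (f := fun r => tm D m r n) (fun r => tm_step hpos r n) h

end AntA

open AntA in
/-- (S3) -/
theorem stAnt : StAnt := by
  intro D hD hpos r r' hr h
  have e1 : ∀ r, AS D r = ∑' n, tm D D r n := fun r => rfl
  have e2 : ∀ r, AI D r = ∑' n, tm D 1 r n := fun r => by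
    unfold AI
    refine tsum_congr fun n => ?_
    unfold tm
    simp
  rw [e1, e1, e2, e2]
  exact ⟨tsum_anti hD hpos hr h, tsum_anti le_rfl hpos hr h⟩

end RZ

end Pool.Agent.Lib.MP_7c08ba_nt
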