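import Mathlib
import Pool.Agent.Lib.MP_7c08ba_nt.RZ.StS7
import Pool.Agent.Lib.MP_7c08ba_nt.RZ.SuB

set_option autoImplicit false

/-!
(S2) the derivative of the sums at `-r`, trivial character.
-/

namespace Pool.Agent.Lib.MP_7c08ba_nt

namespace RZ

open NumberField MeasureTheory UpperHalfPlane Set IsDedekindDomain
open scoped MatrixGroups ComplexConjugate nonZeroDivisors

namespace CloA

open SuBm

theorem summ_pow : Summable fun n : ℕ => ((n : ℝ) + 1) ^ (-(7 / 4) : ℝ) := by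
  have h := (summable_nat_add_iff 1).2 (Real.summable_nat_rpow.2 (by norm_num : -(7 / 4) < (-1 : ℝ)))
  refine h.congr fun n => ?_
  push_cast
  rfl

theorem diff_tsum (r : ℕ) (hr : 4 ≤ r) (f : ℂ → ℕ → ℂ)
    (hf : ∀ n, DifferentiableOn ℂ (fun t => f t n) {t | -(r : ℝ) - 1 / 4 < t.re ∧ t.re < -1})
    (K : ℝ) (hb : ∀ (n : ℕ) (t : ℂ), -(r : ℝ) - 1 / 4 ≤ t.re → t.re ≤ -(r : ℝ) + 1 / 4 →
      ‖t‖ ≤ r + 1 → ‖f t n‖ ≤ K * ((n : ℝ) + 1) ^ (-(7 / 4) : ℝ)) :
    DifferentiableAt ℂ (fun t => ∑' n, f t n) (-(r : ℂ)) := by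
  have hr5 : (4 : ℝ) ≤ r := by exact_mod_cast hr
  have hU : ∀ t ∈ Metric.ball (-(r : ℂ)) (1 / 4), -(r : ℝ) - 1 / 4 < t.re ∧
      t.re < -(r : ℝ) + 1 / 4 ∧ ‖t‖ ≤ r + 1 := by
    intro t ht
    rw [Metric.mem_ball, Complex.dist_eq] at ht
    have h1 := Complex.abs_re_le_norm (t - -(r : ℂ))
    have h2 : (t - -(r : ℂ)).re = t.re + r := by simp
    rw [h2] at h1
    have h3 := abs_le.1 h1
    refine ⟨by linarith [h3.1], by linarith [h3.2], ?_⟩
    have h4 : ‖t‖ ≤ ‖t - -(r : ℂ)‖ + ‖(-(r : ℂ))‖ := by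
      have := norm_add_le (t - -(r : ℂ)) (-(r : ℂ))
      rwa [sub_add_cancel] at this
    rw [norm_neg, Complex.norm_natCast] at h4
    linarith
  have hd : DifferentiableOn ℂ (fun t => ∑' n, f t n) (Metric.ball (-(r : ℂ)) (1 / 4)) := by
    refine Complex.differentiableOn_tsum_of_summable_norm (summ_pow.mul_left K) (fun n => ?_)
      Metric.isOpen_ball fun n t ht => ?_
    · refine (hf n).mono fun t ht => ?_
      obtain ⟨h1, h2, -⟩ := hU t ht
      exact ⟨h1, by linarith⟩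
    · obtain ⟨h1, h2, h3⟩ := hU t ht
      exact hb n t h1.le h2.le h3
  exact hd.differentiableAt (Metric.ball_mem_nhds _ (by norm_num))

theorem term_bound (D r n : ℕ) (hr : 4 ≤ r) (h C a : ℝ) (hC : 0 ≤ C) (hh : 0 ≤ h)
    (x y z : ℂ) (hx : ‖x‖ ≤ (h + 1) * ((n : ℝ) + 1))
    (hy : ‖y‖ ≤ (D : ℝ) ^ 2 * ((n : ℝ) + 1) ^ 2)
    (hz : ‖z‖ ≤ C * ((n : ℝ) + 1) ^ (a - (0 : ℕ) - 1)) (ha : a ≤ -(r : ℝ) + 1 / 4) :
    ‖x * y * z‖ ≤ ((h + 1) * (D : ℝ) ^ 2 * C) * ((n : ℝ) + 1) ^ (-(7 / 4) : ℝ) := by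
  have hr5 : (4 : ℝ) ≤ r := by exact_mod_cast hr
  set X : ℝ := (n : ℝ) + 1 with hX
  have hX1 : 1 ≤ X := by
    rw [hX]
    linarith [(Nat.cast_nonneg n : (0 : ℝ) ≤ n)]
  have hX0 : 0 < X := by linarith
  rw [norm_mul, norm_mul]
  have h1 : ‖x‖ * ‖y‖ * ‖z‖ ≤ ((h + 1) * X) * ((D : ℝ) ^ 2 * X ^ 2) *
      (C * X ^ (a - (0 : ℕ) - 1)) := by
    refine mul_le_mul (mul_le_mul hx hy (norm_nonneg _) (by positivity)) hz (norm_nonneg _)
      (by positivity)
  refine le_trans h1 ?_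
  have h2 : X * X ^ 2 * X ^ (a - (0 : ℕ) - 1) ≤ X ^ (-(7 / 4) : ℝ) := by
    have e1 : X * X ^ 2 * X ^ (a - (0 : ℕ) - 1) = X ^ (1 + 2 + (a - (0 : ℕ) - 1)) := by
      rw [Real.rpow_add hX0, Real.rpow_add hX0, Real.rpow_one, Real.rpow_two]
    rw [e1]
    refine Real.rpow_le_rpow_of_exponent_le hX1 ?_
    push_cast
    linarith
  calc ((h + 1) * X) * ((D : ℝ) ^ 2 * X ^ 2) * (C * X ^ (a - (0 : ℕ) - 1))
      = ((h + 1) * (D : ℝ) ^ 2 * C) * (X * X ^ 2 * X ^ (a - (0 : ℕ) - 1)) := by ring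
    _ ≤ _ := mul_le_mul_of_nonneg_left h2 (by positivity)

section

variable {D : ℕ} {χ : DirichletCharacter ℂ D}

theorem chi_nat (hχ : ∀ n : ℤ, χ n = (jacobiSym n D : ℂ)) (d : ℕ) :
    χ (d : ZMod D) = (jacobiSym d D : ℂ) := by
  have h := hχ (d : ℤ)
  rwa [Int.cast_natCast] at h

theorem sS_val (hχ : ∀ n : ℤ, χ n = (jacobiSym n D : ℂ)) (n : ℕ) :
    sS D χ n 0 = (rn D ((n : ℤ) - D).natAbs : ℂ) := by
  rw [sS_zero_arg hχ]
  unfold rn
  push_cast
  rfl

theorem deriv_sS (hχ : ∀ n : ℤ, χ n = (jacobiSym n D : ℂ)) (n : ℕ) :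
    deriv (sS D χ n) 0 = -2 * (sl D ((n : ℤ) - D).natAbs : ℂ) := by
  have h : HasDerivAt (sS D χ n) (∑ d ∈ ((n : ℤ) - D).natAbs.divisors,
      χ ((d : ℤ) : ZMod D) * ((d : ℂ) ^ (-(2 * (0 : ℂ))) * Complex.log d * (-2))) 0 := by
    unfold sS
    refine HasDerivAt.fun_sum fun d hd => ?_
    refine HasDerivAt.const_mul _ ?_
    have h0 : (d : ℂ) ≠ 0 := by
      exact_mod_cast (Nat.pos_of_mem_divisors hd).ne'
    refine HasDerivAt.const_cpow ?_ (Or.inl h0)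
    have := ((hasDerivAt_id (0 : ℂ)).const_mul 2).fun_neg
    simpa using this
  rw [h.deriv]
  unfold sl
  push_cast
  rw [Finset.mul_sum]
  refine Finset.sum_congr rfl fun d hd => ?_
  rw [chi_nat hχ]
  simp
  ring

theorem sI_val (hχ : ∀ n : ℤ, χ n = (jacobiSym n D : ℂ)) {n : ℕ} (hn : 1 < n) :
    sI D χ n 0 = (rn D (n - 1) : ℂ) := by
  unfold sI rn
  have h1 : ((n : ℤ) - 1).natAbs = n - 1 := by omega
  rw [h1, ← Nat.sum_div_divisors (n - 1) fun d => jacobiSym d D]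
  push_cast
  refine Finset.sum_congr rfl fun d _ => ?_
  have h2 : ((n : ℤ) - 1) / (d : ℤ) = (((n - 1) / d : ℕ) : ℤ) := by
    rw [Int.natCast_ediv, Nat.cast_sub hn.le]
    simp
  rw [h2, hχ]
  simp

end

/-- The value of the Legendre polynomial at `0`. -/
theorem Jac_zero (r : ℕ) : Jac 0 r 0 = (-1) ^ r := by
  unfold Jac
  rw [Finset.sum_eq_single r]
  · simp
  · intro i hi hir
    have h1 : i < r := by
      have := Finset.mem_range.1 hi
      omega
    rw [zero_pow (by omega : r - i ≠ 0), mul_zero]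
  · intro h
    exact absurd (Finset.mem_range.2 (Nat.lt_succ_self r)) h

theorem E_val (h2 : StKpV) (h7 : StKpA) (D r : ℕ) (hD : 1 < D) (ρ : ℝ) :
    deriv (fun t => cS D 0 t * ((ρ : ℂ) * 1 * Kp 0 r 0 D t) +
      cI D r t * ((ρ : ℂ) * (-1) * Kp 0 r 0 1 t)) (-(r : ℂ)) =
      ((4 * Real.pi / Real.sqrt D * (r.factorial : ℝ) * ((4 * Real.pi) ^ (r + 1))⁻¹ *
        (-((-1) ^ r * ρ * Real.log D)) : ℝ) : ℂ) := by
  have hD0 : (D : ℂ) ≠ 0 := by exact_mod_cast (by omega : D ≠ 0)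
  have hD1 : (1 : ℝ) < D := by exact_mod_cast hD
  have hsq : ((Real.sqrt D : ℝ) : ℂ) * (Real.sqrt D : ℝ) = D := by
    rw [← Complex.ofReal_mul, Real.mul_self_sqrt (by linarith), Complex.ofReal_natCast]
  have hs0 : ((Real.sqrt D : ℝ) : ℂ) ≠ 0 := by
    exact_mod_cast (Real.sqrt_pos.2 (by linarith : (0 : ℝ) < D)).ne'
  have hfun : (fun t => cS D 0 t * ((ρ : ℂ) * 1 * Kp 0 r 0 D t) +
      cI D r t * ((ρ : ℂ) * (-1) * Kp 0 r 0 1 t)) =
      fun t => (ρ : ℂ) * Kp 0 r 0 D t * (-(Complex.I * Real.sqrt D) *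
        ((D : ℂ) ^ (-t) - (D : ℂ) ^ (-(2 * (r : ℂ)) - 3 * t))) := by
    funext t
    have e1 : Kp 0 r 0 1 t = (D : ℂ) ^ (1 - t) * Kp 0 r 0 D t := by
      rw [Kp_scale 0 r D (by omega) t, ← mul_assoc, ← Complex.cpow_add _ _ hD0]
      simp
    have e2 : cS D 0 t = -(Complex.I * Real.sqrt D) * (D : ℂ) ^ (-t) := by
      unfold cS
      have e3 : ((0 : ℕ) : ℂ) + 1 - t = 1 + -t := by
        push_cast
        ring
      rw [e3, Complex.cpow_add _ _ hD0, Complex.cpow_one, pow_zero, inv_one, mul_one, ← hsq]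
      field_simp
    have e4 : cI D r t * (D : ℂ) ^ (1 - t) = -(Complex.I * Real.sqrt D) *
        (D : ℂ) ^ (-(2 * (r : ℂ)) - 3 * t) := by
      unfold cI
      rw [mul_assoc, ← Complex.cpow_add _ _ hD0]
      congr 2
      ring
    rw [e1, e2]
    linear_combination (-(ρ : ℂ) * Kp 0 r 0 D t) * e4
  rw [hfun]
  have hK := (diff_Kp h7 0 r 0 D (by omega) (by omega)).hasDerivAt
  have d1 : HasDerivAt (fun t : ℂ => (D : ℂ) ^ (-t)) ((D : ℂ) ^ (-(-(r : ℂ))) * Complex.log D * (-1))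
      (-(r : ℂ)) := (hasDerivAt_neg _).const_cpow (Or.inl hD0)
  have d2 : HasDerivAt (fun t : ℂ => (D : ℂ) ^ (-(2 * (r : ℂ)) - 3 * t))
      ((D : ℂ) ^ (-(2 * (r : ℂ)) - 3 * (-(r : ℂ))) * Complex.log D * (-3)) (-(r : ℂ)) := by
    refine HasDerivAt.const_cpow ?_ (Or.inl hD0)
    have := ((hasDerivAt_id (-(r : ℂ))).const_mul 3).const_sub (-(2 * (r : ℂ)))
    simpa using this
  have d3 := (hK.const_mul (ρ : ℂ)).mul ((d1.sub d2).const_mul (-(Complex.I * Real.sqrt D)))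
  have x1 : -(-(r : ℂ)) = r := by ring
  have x2 : -(2 * (r : ℂ)) - 3 * (-(r : ℂ)) = r := by ring
  have hder : deriv (fun t => (ρ : ℂ) * Kp 0 r 0 D t * (-(Complex.I * Real.sqrt D) *
        ((D : ℂ) ^ (-t) - (D : ℂ) ^ (-(2 * (r : ℂ)) - 3 * t)))) (-(r : ℂ)) =
      (ρ : ℂ) * Kp 0 r 0 D (-(r : ℂ)) * (-(Complex.I * Real.sqrt D) * ((D : ℂ) ^ r *
        (Complex.log D * 2))) := by
    refine Eq.trans d3.deriv ?_
    simp only [Pi.sub_apply, x1, x2, Complex.cpow_natCast]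
    ring
  rw [hder, (h2 0 r 0 D (by omega)).1 (by omega)]
  have hz : ((0 : ℕ) : ℝ) / D = 0 := by simp
  have hpi : (Real.pi : ℂ) ≠ 0 := by exact_mod_cast Real.pi_ne_zero
  rw [hz, Jac_zero, show (0 + r) = r by ring, mul_pow, ← Complex.natCast_log, pow_succ (D : ℂ)]
  push_cast
  rw [← hsq]
  field_simp
  ring_nf
  rw [Complex.I_sq]
  ring

section

variable {F : Type} [Field F] [NumberField F]

theorem rT_val (h6 : StCountD) {D : ℕ} {s : 𝓞 F} {σ : F →+* ℂ} {χ : DirichletCharacter ℂ D}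
    {cj : 𝓞 F ≃+* 𝓞 F} (hd : DatD D s σ χ cj) {ψ : Ideal (𝓞 F) →*₀ ℂ} (c : Reps σ)
    (hψ : ∀ a : Ideal (𝓞 F), a ≠ ⊥ → ψ a = 1) {n : ℕ} (hn : 1 ≤ n) :
    rT 0 ψ c n = (rn D n : ℂ) := by
  unfold rT
  rw [if_neg (by omega)]
  unfold bψ rn
  have hfin : Finite {b : Ideal (𝓞 F) // Ideal.absNorm b = n} :=
    (Ideal.finite_setOfPred_absNorm_eq n).to_subtype
  have h1 : ∀ b : {b : Ideal (𝓞 F) // Ideal.absNorm b = n}, ψ b.1 = 1 := fun b => hψ _ (by
    rintro h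
    have := b.2
    rw [h, Ideal.absNorm_bot] at this
    omega)
  rw [tsum_congr h1]
  have := Fintype.ofFinite {b : Ideal (𝓞 F) // Ideal.absNorm b = n}
  rw [tsum_fintype, Finset.sum_const, Finset.card_univ, nsmul_eq_mul, mul_one,
    ← Nat.card_eq_fintype_card]
  have h2 := h6 D F _ _ s σ χ cj hd n hn
  exact_mod_cast congrArg (fun x : ℤ => (x : ℂ)) h2

theorem rT_zero {σ : F →+* ℂ} {ψ : Ideal (𝓞 F) →*₀ ℂ} (c : Reps σ)
    (hψ : ∀ a : Ideal (𝓞 F), a ≠ ⊥ → ψ a = 1) :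
    rT 0 ψ c 0 = ((Fintype.card (ClassGroup (𝓞 F)) / 2 : ℝ) : ℂ) := by
  unfold rT
  rw [if_pos rfl, if_pos rfl]
  have h1 : ∀ A : ClassGroup (𝓞 F), (ψ (c.R A : Ideal (𝓞 F)))⁻¹ = 1 := fun A => by
    rw [hψ _ (nonZeroDivisors.coe_ne_zero _), inv_one]
  rw [Finset.sum_congr rfl fun A _ => h1 A, Finset.sum_const, Finset.card_univ, nsmul_eq_mul]
  push_cast
  ring

theorem abs_rn (D n : ℕ) : |rn D n| ≤ n := by
  unfold rn
  push_cast
  refine le_trans (Finset.abs_sum_le_sum_abs _ _) ?_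
  refine le_trans (Finset.sum_le_card_nsmul _ _ 1 fun d _ => ?_) ?_
  · rcases jacobiSym.trichotomy (d : ℤ) D with h | h | h <;> rw [h] <;> norm_num
  · rw [nsmul_eq_mul, mul_one]
    exact_mod_cast Nat.card_divisors_le_self n

end

/-- The terms of the first sum. -/
noncomputable def fS (D r n : ℕ) : ℝ :=
  if n < D then rn D n * sl D (D - n) * Jac 0 r ((n : ℝ) / D)
  else if D < n then -(rn D n * rn D (n - D) * (D : ℝ) ^ (r + 1) * JI 0 r n D / 2) else 0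

/-- The terms of the second sum. -/
noncomputable def fI (D r n : ℕ) : ℝ :=
  if 1 < n then -(rn D n * rn D (n - 1) * JI 0 r n 1 / 2) else 0

/-- The factor. -/
noncomputable def kap (D r : ℕ) : ℝ :=
  4 * Real.pi / Real.sqrt D * (r.factorial : ℝ) * ((4 * Real.pi) ^ (r + 1))⁻¹

theorem kap_pos {D r : ℕ} (hD : 0 < D) : 0 < kap D r := by
  have := Real.pi_pos
  have hD' : (0 : ℝ) < D := by exact_mod_cast hD
  unfold kap
  positivity

theorem tS (h2 : StKpV) (h3 : StKpE) (h6 : StCountD) (h7 : StKpA) {F : Type} [Field F]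
    [NumberField F] {D : ℕ} [NeZero D] {s : 𝓞 F} {σ : F →+* ℂ} {χ : DirichletCharacter ℂ D}
    {cj : 𝓞 F ≃+* 𝓞 F} (hd : DatD D s σ χ cj) (hp : D.Prime) {ψ : Ideal (𝓞 F) →*₀ ℂ}
    (c : Reps σ) (hψ : ∀ a : Ideal (𝓞 F), a ≠ ⊥ → ψ a = 1) {n r : ℕ} (hn : 1 ≤ n) (hr : 1 ≤ r) :
    cS D 0 (-(r : ℂ)) * deriv (fun t => uS D χ 0 r ψ c t n) (-(r : ℂ)) =
      ((kap D r * fS D r n : ℝ) : ℂ) := by
  have hD1 : 1 ≤ D := hp.one_lt.le
  have hDR : (0 : ℝ) < D := by exact_mod_cast hD1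
  have hD0 : (D : ℂ) ≠ 0 := by exact_mod_cast (by omega : D ≠ 0)
  have hpi : (Real.pi : ℂ) ≠ 0 := by exact_mod_cast Real.pi_ne_zero
  have hs0 : ((Real.sqrt D : ℝ) : ℂ) ≠ 0 := by
    exact_mod_cast (Real.sqrt_pos.2 hDR).ne'
  have hcS : cS D 0 (-(r : ℂ)) = (-Complex.I / Real.sqrt D) * (D : ℂ) ^ (r + 1) := by
    unfold cS
    have e : ((0 : ℕ) : ℂ) + 1 - -(r : ℂ) = ((r + 1 : ℕ) : ℂ) := by
      push_cast
      ring
    rw [e, Complex.cpow_natCast, pow_zero, inv_one, mul_one]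
  by_cases hnD : n = D
  · have e1 : (fun t => uS D χ 0 r ψ c t n) = fun _ => (0 : ℂ) := by
      funext t
      simp only [uS, if_pos hnD]
    have e2 : fS D r n = 0 := by
      unfold fS
      rw [if_neg (by omega), if_neg (by omega)]
    rw [e1, deriv_const, e2]
    simp
  · have e1 : (fun t => uS D χ 0 r ψ c t n) = fun t => rT 0 ψ c n *
        sS D χ n (t + r) * Kp 0 r n D t := by
      funext t
      simp only [uS, if_neg hnD]
    have e2 := (hasDeriv_term (rT 0 ψ c n) (sS D χ n) (Kp 0 r n D) r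
      (diff_sS n 0) (diff_Kp h7 0 r n D hD1 hnD)).deriv
    rw [e1, e2, hcS]
    rcases lt_or_gt_of_ne hnD with h8 | h8
    · have e3 : rT 0 ψ c n * (deriv (sS D χ n) 0 * Kp 0 r n D (-(r : ℂ)) +
          sS D χ n 0 * deriv (Kp 0 r n D) (-(r : ℂ))) =
          rT 0 ψ c n * deriv (sS D χ n) 0 * Kp 0 r n D (-(r : ℂ)) := by
        linear_combination (deriv (Kp 0 r n D) (-(r : ℂ))) *
          vanish h6 hd hp 0 ψ c n (by omega) h8
      have e4 : fS D r n = rn D n * sl D (D - n) * Jac 0 r ((n : ℝ) / D) := by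
        unfold fS
        rw [if_pos h8]
      rw [e3, (h2 0 r n D hD1).1 h8, deriv_sS hd.chi, natAbs_lt D n h8.le,
        rT_val h6 hd c hψ hn, e4, show (0 + r) = r by ring, mul_pow]
      unfold kap
      push_cast
      field_simp
      ring_nf
      rw [Complex.I_sq]
      ring
    · have e3 : Kp 0 r n D (-(r : ℂ)) = 0 := (h2 0 r n D hD1).2 h8
      have e4 : fS D r n = -(rn D n * rn D (n - D) * (D : ℝ) ^ (r + 1) * JI 0 r n D / 2) := by
        unfold fS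
        rw [if_neg (by omega), if_pos h8]
      rw [e3, h3 0 r n D hr hD1 h8, sS_val hd.chi, natAbs_gt D n h8.le,
        rT_val h6 hd c hψ hn, e4, show (0 + r) = r by ring]
      unfold kap
      push_cast
      field_simp
      ring_nf
      rw [Complex.I_sq]
      ring

theorem tI (h2 : StKpV) (h3 : StKpE) (h6 : StCountD) (h7 : StKpA) {F : Type} [Field F]
    [NumberField F] {D : ℕ} [NeZero D] {s : 𝓞 F} {σ : F →+* ℂ} {χ : DirichletCharacter ℂ D}
    {cj : 𝓞 F ≃+* 𝓞 F} (hd : DatD D s σ χ cj) (hp : D.Prime) {ψ : Ideal (𝓞 F) →*₀ ℂ}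
    (c : Reps σ) (hψ : ∀ a : Ideal (𝓞 F), a ≠ ⊥ → ψ a = 1) {n r : ℕ} (hn : 1 ≤ n) (hr : 1 ≤ r) :
    cI D r (-(r : ℂ)) * deriv (fun t => uI D χ 0 r ψ c t n) (-(r : ℂ)) =
      ((kap D r * fI D r n : ℝ) : ℂ) := by
  have hD1 : 1 ≤ D := hp.one_lt.le
  have hDR : (0 : ℝ) < D := by exact_mod_cast hD1
  have hD0 : (D : ℂ) ≠ 0 := by exact_mod_cast (by omega : D ≠ 0)
  have hpi : (Real.pi : ℂ) ≠ 0 := by exact_mod_cast Real.pi_ne_zero
  have hs0 : ((Real.sqrt D : ℝ) : ℂ) ≠ 0 := by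
    exact_mod_cast (Real.sqrt_pos.2 hDR).ne'
  have hsq : ((Real.sqrt D : ℝ) : ℂ) * (Real.sqrt D : ℝ) = D := by
    rw [← Complex.ofReal_mul, Real.mul_self_sqrt hDR.le, Complex.ofReal_natCast]
  have hcI : cI D r (-(r : ℂ)) = -Complex.I / Real.sqrt D := by
    unfold cI
    have e : -(2 * (r : ℂ) + 1) - 2 * -(r : ℂ) = -1 := by ring
    rw [e, Complex.cpow_neg_one, ← hsq]
    field_simp
  by_cases hnD : n = 1
  · have e1 : (fun t => uI D χ 0 r ψ c t n) = fun _ => (0 : ℂ) := by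
      funext t
      simp only [uI, if_pos hnD]
    have e2 : fI D r n = 0 := by
      unfold fI
      rw [if_neg (by omega)]
    rw [e1, deriv_const, e2]
    simp
  · have e1 : (fun t => uI D χ 0 r ψ c t n) = fun t => rT 0 ψ c n *
        sI D χ n (t + r) * Kp 0 r n 1 t := by
      funext t
      simp only [uI, if_neg hnD]
    have e2 := (hasDeriv_term (rT 0 ψ c n) (sI D χ n) (Kp 0 r n 1) r
      (diff_sI n 0) (diff_Kp h7 0 r n 1 le_rfl hnD)).deriv
    rw [e1, e2, hcI]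
    have h8 : 1 < n := by omega
    have e3 : Kp 0 r n 1 (-(r : ℂ)) = 0 := (h2 0 r n 1 le_rfl).2 h8
    have e4 : fI D r n = -(rn D n * rn D (n - 1) * JI 0 r n 1 / 2) := by
      unfold fI
      rw [if_pos h8]
    rw [e3, h3 0 r n 1 hr le_rfl h8, sI_val hd.chi h8,
      rT_val h6 hd c hψ hn, e4, show (0 + r) = r by ring]
    unfold kap
    push_cast
    field_simp
    ring_nf
    rw [Complex.I_sq]
    ring

/-- The sum of the terms of the first sum. -/
theorem sum_fS {D r : ℕ} (hD : 0 < D) {x : ℝ}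
    (h : HasSum (fun n => if n = 0 then 0 else fS D r n) x) :
    x = BB D r - AS D r / 2 := by
  have h1 : HasSum (fun n => if n ∈ Finset.range D then (if n = 0 then 0 else
      rn D n * sl D (D - n) * Jac 0 r ((n : ℝ) / D)) else 0) (BB D r) := by
    have h0 : HasSum (fun n : ℕ => if n ∈ Finset.range D then (if n = 0 then 0 else
        rn D n * sl D (D - n) * Jac 0 r ((n : ℝ) / D)) else (0 : ℝ))
        (∑ n ∈ Finset.range D, if n ∈ Finset.range D then (if n = 0 then 0 else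
        rn D n * sl D (D - n) * Jac 0 r ((n : ℝ) / D)) else (0 : ℝ)) :=
      hasSum_sum_of_ne_finset_zero fun n hn => if_neg hn
    rwa [Finset.sum_congr rfl fun n hn => if_pos hn] at h0
  have h1' : HasSum (fun n => if n ∈ Finset.range D then (if n = 0 then 0 else
      rn D n * sl D (D - n) * Jac 0 r ((n : ℝ) / D)) else 0) (BB D r) := h1
  have h2 := (h1'.sub h).mul_left 2
  have h3 : (fun n : ℕ => 2 * ((if n ∈ Finset.range D then (if n = 0 then 0 else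
      rn D n * sl D (D - n) * Jac 0 r ((n : ℝ) / D)) else 0) -
      (if n = 0 then 0 else fS D r n))) = fun n : ℕ => if D < n then
        rn D n * rn D (n - D) * (D : ℝ) ^ (r + 1) * JI 0 r n D else 0 := by
    funext n
    simp only [Finset.mem_range]
    unfold fS
    rcases lt_trichotomy n D with h4 | h4 | h4
    · rw [if_pos h4, if_pos h4, sub_self, mul_zero, if_neg (by omega : ¬ D < n)]
    · rw [if_neg (by omega), if_neg (by omega), if_neg (by omega), if_neg (by omega),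
        if_neg (by omega)]
      simp
    · rw [if_neg (by omega), if_neg (by omega), if_neg (by omega), if_pos h4, if_pos h4]
      ring
  rw [h3] at h2
  have h4 : AS D r = 2 * (BB D r - x) := h2.tsum_eq
  rw [h4]
  ring

theorem sum_fI {D r : ℕ} {x : ℝ} (h : HasSum (fun n => if n = 0 then 0 else fI D r n) x) :
    x = -(AI D r / 2) := by
  have h2 := h.mul_left (-2)
  have h3 : (fun n : ℕ => -2 * (if n = 0 then 0 else fI D r n)) = fun n : ℕ => if 1 < n then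
        rn D n * rn D (n - 1) * JI 0 r n 1 else 0 := by
    funext n
    unfold fI
    by_cases h4 : 1 < n
    · rw [if_neg (by omega), if_pos h4, if_pos h4]
      ring
    · rw [if_neg h4, if_neg h4]
      simp
  rw [h3] at h2
  have h4 : AI D r = -2 * x := h2.tsum_eq
  rw [h4]
  ring

end CloA

open CloA SuBm in
/-- (S2) -/
theorem stClo (h1 : StSuA) (h2 : StKpV) (h3 : StKpE) (h6 : StCountD) (h7 : StKpA) :
    StClo := by
  intro D _ F _ _ s σ χ cj r ψ c hd hp h1ψ hr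
  have hψ : IsHecke σ 0 ψ := fun t ht => by
    rw [pow_zero, h1ψ _ (by simpa using ht)]
  have hD1 : 1 ≤ D := hp.one_lt.le
  have hr4 : (4 : ℝ) ≤ r := by exact_mod_cast hr
  obtain ⟨-, hdS, hdI, hsm⟩ := h1 D inferInstance F inferInstance inferInstance s σ χ cj 0 r ψ c hd
    hp hψ
  set t0 : ℂ := -(r : ℂ) with ht0
  have ht0re : t0.re = -(r : ℝ) := by simp [ht0]
  obtain ⟨-, -, hA', hB'⟩ := hsm t0 (by rw [ht0re]; linarith) (by rw [ht0re]; linarith)
  have ht0r : t0 + r = 0 := by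
    rw [ht0]
    ring
  set h : ℝ := (Fintype.card (ClassGroup (𝓞 F)) / 2 : ℝ) with hh
  have hh0 : 0 ≤ h := by positivity
  have hrTb : ∀ n : ℕ, ‖rT 0 ψ c n‖ ≤ (h + 1) * ((n : ℝ) + 1) := by
    intro n
    rcases Nat.eq_zero_or_pos n with rfl | hn
    · rw [rT_zero c h1ψ, Complex.norm_real, Real.norm_of_nonneg hh0]
      simp
    · rw [rT_val h6 hd c h1ψ hn, Complex.norm_real, Real.norm_eq_abs]
      refine (abs_rn D n).trans ?_
      have : (0 : ℝ) ≤ n := Nat.cast_nonneg n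
      nlinarith
  have hKb : ∀ m : ℕ, 1 ≤ m → ∃ C : ℝ, 0 ≤ C ∧ ∀ (n : ℕ) (t : ℂ), n ≠ m →
      -(r : ℝ) - 1 / 4 ≤ t.re → t.re ≤ -(r : ℝ) + 1 / 4 → ‖t‖ ≤ r + 1 →
      ‖Kp 0 r n m t‖ ≤ C * ((n : ℝ) + 1) ^ (t.re - (0 : ℕ) - 1) := by
    intro m hm
    obtain ⟨C, hC⟩ := (h7 0 r m hm).2 (r + 1)
    refine ⟨max C 0, le_max_right _ _, fun n t hn ha hb hc => ?_⟩
    refine le_trans (hC n t hn (by linarith) (by linarith) hc) ?_
    exact mul_le_mul_of_nonneg_right (le_max_left _ _) (by positivity)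
  obtain ⟨CS, hCS0, hCS⟩ := hKb D hD1
  obtain ⟨CI, hCI0, hCI⟩ := hKb 1 le_rfl
  have hdiffA : DifferentiableAt ℂ (fun t => ∑' n, uS D χ 0 r ψ c t n) t0 := by
    refine CloA.diff_tsum r hr (fun t n => uS D χ 0 r ψ c t n) hdS
      ((h + 1) * (D : ℝ) ^ 2 * CS) ?_
    intro n t ha hb hc
    by_cases hn : n = D
    · simp only [uS, if_pos hn, norm_zero]
      positivity
    · simp only [uS, if_neg hn]
      refine CloA.term_bound D r n hr h CS t.re hCS0 hh0 _ _ _ (hrTb n)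
        (norm_sS n _ ?_ hD1) (hCS n t hn ha hb hc) hb
      simp
      linarith
  have hdiffB : DifferentiableAt ℂ (fun t => ∑' n, uI D χ 0 r ψ c t n) t0 := by
    refine CloA.diff_tsum r hr (fun t n => uI D χ 0 r ψ c t n) hdI
      ((h + 1) * (D : ℝ) ^ 2 * CI) ?_
    intro n t ha hb hc
    by_cases hn : n = 1
    · simp only [uI, if_pos hn, norm_zero]
      positivity
    · simp only [uI, if_neg hn]
      refine CloA.term_bound D r n hr h CI t.re hCI0 hh0 _ _ _ (hrTb n)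
        (norm_sI n _ ?_ hD1) (hCI n t hn ha hb hc) hb
      simp
      linarith
  have hSUM := ((diff_cS D 0 hD1 t0).hasDerivAt.mul hdiffA.hasDerivAt).add
    ((diff_cI D r hD1 t0).hasDerivAt.mul hdiffB.hasDerivAt)
  -- the values at `t0`
  have hA0 : ∑' n, uS D χ 0 r ψ c t0 n = uS D χ 0 r ψ c t0 0 := by
    refine tsum_eq_single 0 fun n hn => ?_
    by_cases hnD : n = D
    · simp only [uS, if_pos hnD]
    · simp only [uS, if_neg hnD]
      rcases lt_or_gt_of_ne hnD with h8 | h8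
      · rw [ht0r, vanish h6 hd hp 0 ψ c n (Nat.pos_of_ne_zero hn) h8, zero_mul]
      · rw [(h2 0 r n D hD1).2 h8, mul_zero]
  have hB0 : ∑' n, uI D χ 0 r ψ c t0 n = uI D χ 0 r ψ c t0 0 := by
    refine tsum_eq_single 0 fun n hn => ?_
    by_cases hnD : n = 1
    · simp only [uI, if_pos hnD]
    · simp only [uI, if_neg hnD]
      rw [(h2 0 r n 1 le_rfl).2 (by omega), mul_zero]
  have hopen : {t : ℂ | -(r : ℝ) - 1 / 4 < t.re ∧ t.re < -1} ∈ nhds t0 := by
    have ho : IsOpen {t : ℂ | -(r : ℝ) - 1 / 4 < t.re ∧ t.re < -1} :=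
      (isOpen_lt continuous_const Complex.continuous_re).and
        (isOpen_lt Complex.continuous_re continuous_const)
    refine ho.mem_nhds ⟨?_, ?_⟩
    · rw [ht0re]
      linarith
    · rw [ht0re]
      linarith
  have hE := ((diff_cS D 0 hD1 t0).hasDerivAt.mul
      ((hdS 0).differentiableAt hopen).hasDerivAt).add
    ((diff_cI D r hD1 t0).hasDerivAt.mul ((hdI 0).differentiableAt hopen).hasDerivAt)
  have hχ1 : χ (-1) = -1 := by
    have h8 := hd.chi (-1)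
    rw [jac_neg_one hd.odd] at h8
    simpa using h8
  have hEv : deriv (fun t => cS D 0 t * uS D χ 0 r ψ c t 0 + cI D r t * uI D χ 0 r ψ c t 0) t0 =
      ((kap D r * (-((-1) ^ r * h * Real.log D)) : ℝ) : ℂ) := by
    have e0 : (0 : ℕ) ≠ D := by omega
    have e1 : (fun t => cS D 0 t * uS D χ 0 r ψ c t 0 + cI D r t * uI D χ 0 r ψ c t 0) =
        fun t => cS D 0 t * ((h : ℂ) * 1 * Kp 0 r 0 D t) +
          cI D r t * ((h : ℂ) * (-1) * Kp 0 r 0 1 t) := by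
      funext t
      simp only [uS, uI, if_neg e0, if_neg (zero_ne_one : (0 : ℕ) ≠ 1), sS_zero hp,
        sI_zero _ hχ1, rT_zero c h1ψ, hh]
    rw [e1, E_val h2 h7 D r hp.one_lt h]
    rfl
  -- the sums
  have hone : ∀ (a : ℂ) (u : ℕ → ℂ) (S : ℂ) (g : ℕ → ℝ), HasSum u S →
      (∀ n, 1 ≤ n → a * u n = ((kap D r * g n : ℝ) : ℂ)) → ∃ x : ℝ,
      HasSum (fun n => if n = 0 then 0 else g n) x ∧
        a * S - a * u 0 = ((kap D r * x : ℝ) : ℂ) := by
    intro a u S g hS hu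
    have hk := (kap_pos (r := r) (by omega : 0 < D)).ne'
    have h9 := (hS.mul_left a).sub (hasSum_ite_eq (0 : ℕ) (a * u 0))
    have h10 : (fun n : ℕ => a * u n - if n = 0 then a * u 0 else 0) =
        fun n : ℕ => ((kap D r * (if n = 0 then 0 else g n) : ℝ) : ℂ) := by
      funext n
      by_cases hn : n = 0
      · rw [if_pos hn, if_pos hn, hn]
        simp
      · rw [if_neg hn, if_neg hn, sub_zero, hu n (by omega)]
    rw [h10] at h9
    have h11 : (a * S - a * u 0) = (((a * S - a * u 0).re : ℝ) : ℂ) := by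
      have h12 := Complex.hasSum_im h9
      simp only [Complex.ofReal_im] at h12
      have h13 := h12.unique hasSum_zero
      exact Complex.ext (by simp) (by simpa using h13)
    have h14 := Complex.hasSum_re h9
    simp only [Complex.ofReal_re] at h14
    refine ⟨(kap D r)⁻¹ * (a * S - a * u 0).re, ?_, ?_⟩
    · have h15 := h14.mul_left (kap D r)⁻¹
      have h16 : (fun n : ℕ => (kap D r)⁻¹ * (kap D r * (if n = 0 then 0 else g n))) =
          fun n : ℕ => if n = 0 then 0 else g n := by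
        funext n
        rw [← mul_assoc, inv_mul_cancel₀ hk, one_mul]
      rwa [h16] at h15
    · rw [← mul_assoc, mul_inv_cancel₀ hk, one_mul]
      exact h11
  obtain ⟨x, hx1, hx2⟩ := hone (cS D 0 t0) _ _ (fS D r) hA' fun n hn =>
    tS h2 h3 h6 h7 hd hp c h1ψ hn (by omega)
  obtain ⟨y, hy1, hy2⟩ := hone (cI D r t0) _ _ (fI D r) hB' fun n hn =>
    tI h2 h3 h6 h7 hd hp c h1ψ hn (by omega)
  have hfin : deriv (SUM D χ 0 r ψ c) t0 =
      deriv (fun t => cS D 0 t * uS D χ 0 r ψ c t 0 + cI D r t * uI D χ 0 r ψ c t 0) t0 +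
      (cS D 0 t0 * deriv (fun t => ∑' n, uS D χ 0 r ψ c t n) t0 -
        cS D 0 t0 * deriv (fun t => uS D χ 0 r ψ c t 0) t0) +
      (cI D r t0 * deriv (fun t => ∑' n, uI D χ 0 r ψ c t n) t0 -
        cI D r t0 * deriv (fun t => uI D χ 0 r ψ c t 0) t0) := by
    have e1 : deriv (SUM D χ 0 r ψ c) t0 = _ := hSUM.deriv
    have e2 : deriv (fun t => cS D 0 t * uS D χ 0 r ψ c t 0 + cI D r t * uI D χ 0 r ψ c t 0) t0 =
      _ := hE.deriv
    rw [e1, e2, hA0, hB0]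
    ring
  rw [hfin, hEv, hx2, hy2, sum_fS (by omega) hx1, sum_fI hy1]
  rw [← Complex.ofReal_add, ← Complex.ofReal_add]
  congr 1
  unfold kap
  ring

end RZ

end Pool.Agent.Lib.MP_7c08ba_nt
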