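import Mathlib
import Pool.Agent.Lib.MP_7c08ba_nt.RZ.StS7

set_option autoImplicit false

/-!
Size of the Legendre polynomials `Jac 0 r` at `1/7`, `2/7`, `4/7`: the quadratic form
`p (r+1)^2 - 2 y p (r+1) p r + (p r)^2`, `y = 2x - 1`, decreases with `r` (by the three term
recurrence), so a value at `r = 14` bounds all later polynomials.
-/

namespace Pool.Agent.Lib.MP_7c08ba_nt.RZ

namespace JBaux

open Polynomial

/-- generating polynomial of the squares of the binomial coefficients -/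
noncomputable def Np (r : ℕ) : ℝ[X] :=
  ∑ i ∈ Finset.range (r + 1), C (((r.choose i : ℕ) : ℝ) ^ 2) * X ^ i

theorem coeff_Np (r i : ℕ) : (Np r).coeff i = ((r.choose i : ℕ) : ℝ) ^ 2 := by
  unfold Np
  rw [finsetSum_coeff]
  by_cases hi : i < r + 1
  · rw [Finset.sum_eq_single i]
    · rw [coeff_C_mul_X_pow, if_pos rfl]
    · intro j _ hj
      rw [coeff_C_mul_X_pow, if_neg (Ne.symm hj)]
    · intro h
      exact absurd (Finset.mem_range.2 hi) h
  · rw [Nat.choose_eq_zero_of_lt (by omega)]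
    rw [Finset.sum_eq_zero]
    · simp
    · intro j hj
      have : j ≠ i := by
        have := Finset.mem_range.1 hj
        omega
      rw [coeff_C_mul_X_pow, if_neg (Ne.symm this)]

/-- the identity of the binomial coefficients -/
theorem choose_id (r i : ℕ) :
    ((r : ℝ) + 2) * (((r + 2).choose (i + 2) : ℕ) : ℝ) ^ 2 =
      (2 * r + 3) * ((((r + 1).choose (i + 2) : ℕ) : ℝ) ^ 2 + (((r + 1).choose (i + 1) : ℕ) : ℝ) ^ 2)
      - (r + 1) * (((r.choose (i + 2) : ℕ) : ℝ) ^ 2 - 2 * ((r.choose (i + 1) : ℕ) : ℝ) ^ 2 +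
        ((r.choose i : ℕ) : ℝ) ^ 2) := by
  have e1 : (((r + 1).choose (i + 1) : ℕ) : ℝ) = (r.choose i : ℕ) + (r.choose (i + 1) : ℕ) := by
    rw [Nat.choose_succ_succ]
    push_cast
    ring
  have e2 : (((r + 1).choose (i + 2) : ℕ) : ℝ) =
      (r.choose (i + 1) : ℕ) + (r.choose (i + 2) : ℕ) := by
    rw [Nat.choose_succ_succ]
    push_cast
    ring
  have e3 : (((r + 2).choose (i + 2) : ℕ) : ℝ) =
      (r.choose i : ℕ) + 2 * (r.choose (i + 1) : ℕ) + (r.choose (i + 2) : ℕ) := by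
    rw [show r + 2 = (r + 1) + 1 from rfl, show i + 2 = (i + 1) + 1 from rfl,
      Nat.choose_succ_succ]
    push_cast
    rw [e1, show i + 1 + 1 = i + 2 from rfl, e2]
    ring
  rw [e3, e2, e1]
  have h1 := Nat.choose_succ_right_eq r i
  have h2 := Nat.choose_succ_right_eq r (i + 1)
  -- C(r,i+1) (i+1) = C(r,i) (r - i)
  rcases Nat.lt_or_ge r i with h | h
  · rw [Nat.choose_eq_zero_of_lt h, Nat.choose_eq_zero_of_lt (show r < i + 1 by omega),
      Nat.choose_eq_zero_of_lt (show r < i + 2 by omega)]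
    simp
  rcases Nat.eq_or_lt_of_le h with h' | h'
  · subst h'
    rw [Nat.choose_self, Nat.choose_eq_zero_of_lt (show i < i + 1 by omega),
      Nat.choose_eq_zero_of_lt (show i < i + 2 by omega)]
    push_cast
    ring
  · have a1 : ((r.choose (i + 1) : ℕ) : ℝ) * ((i : ℝ) + 1) = (r.choose i : ℕ) * ((r : ℝ) - i) := by
      have : ((r.choose (i + 1) * (i + 1) : ℕ) : ℝ) = ((r.choose i * (r - i) : ℕ) : ℝ) := by
        exact_mod_cast h1
      rw [Nat.cast_mul, Nat.cast_mul, Nat.cast_sub h] at this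
      push_cast at this
      exact this
    have a2 : ((r.choose (i + 2) : ℕ) : ℝ) * ((i : ℝ) + 2) =
        (r.choose (i + 1) : ℕ) * ((r : ℝ) - (i + 1)) := by
      have : ((r.choose (i + 2) * (i + 2) : ℕ) : ℝ) =
          ((r.choose (i + 1) * (r - (i + 1)) : ℕ) : ℝ) := by
        exact_mod_cast h2
      rw [Nat.cast_mul, Nat.cast_mul, Nat.cast_sub (show i + 1 ≤ r by omega)] at this
      push_cast at this
      exact this
    set A : ℝ := ((r.choose i : ℕ) : ℝ)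
    set B : ℝ := ((r.choose (i + 1) : ℕ) : ℝ)
    set E : ℝ := ((r.choose (i + 2) : ℕ) : ℝ)
    have hri : (0 : ℝ) < (r : ℝ) - i := by
      have : (i : ℝ) < r := by exact_mod_cast h'
      linarith
    have hi2 : (0 : ℝ) < (i : ℝ) + 2 := by positivity
    have b1 : A = B * ((i : ℝ) + 1) / ((r : ℝ) - i) := by
      field_simp
      linarith
    have b2 : E = B * ((r : ℝ) - (i + 1)) / ((i : ℝ) + 2) := by
      field_simp
      linarith
    rw [b1, b2]
    field_simp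
    ring

theorem rec_Np (r : ℕ) :
    C ((r : ℝ) + 2) * Np (r + 2) = C (2 * (r : ℝ) + 3) * ((1 + X) * Np (r + 1)) -
      C ((r : ℝ) + 1) * ((1 - X) ^ 2 * Np r) := by
  have e : ((1 - X) ^ 2 * Np r : ℝ[X]) = Np r - C 2 * (X * Np r) + X * (X * Np r) := by
    have : (C 2 : ℝ[X]) = 2 := rfl
    rw [this]
    ring
  rw [e]
  have e' : ((1 + X) * Np (r + 1) : ℝ[X]) = Np (r + 1) + X * Np (r + 1) := by ring
  rw [e']
  ext i
  rw [coeff_C_mul, coeff_sub, coeff_C_mul, coeff_C_mul, coeff_add, coeff_add,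
    coeff_sub, coeff_C_mul]
  rcases i with _ | _ | i
  · simp only [coeff_X_mul_zero, coeff_Np, Nat.choose_zero_right]
    push_cast
    ring
  · rw [show (0 + 1 : ℕ) = 0 + 1 from rfl]
    simp only [coeff_X_mul, coeff_X_mul_zero, coeff_Np, Nat.choose_zero_right, zero_add,
      Nat.choose_one_right]
    push_cast
    ring
  · simp only [coeff_X_mul, coeff_Np]
    have := choose_id r i
    linear_combination this

theorem Jac_eq (r : ℕ) (x : ℝ) (hx : x ≠ 0) :
    Jac 0 r x = x ^ r * (Np r).eval ((x - 1) / x) := by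
  unfold Jac Np
  rw [eval_finsetSum, Finset.mul_sum]
  refine Finset.sum_congr rfl fun i hi => ?_
  have hi' : i ≤ r := Nat.lt_succ_iff.1 (Finset.mem_range.1 hi)
  rw [eval_mul, eval_C, eval_pow, eval_X, zero_add, div_pow]
  rw [show x ^ r = x ^ (r - i) * x ^ i by rw [← pow_add]; congr 1; omega]
  field_simp

theorem rec_Jac (r : ℕ) (x : ℝ) (hx : x ≠ 0) :
    ((r : ℝ) + 2) * Jac 0 (r + 2) x = (2 * r + 3) * (2 * x - 1) * Jac 0 (r + 1) x -
      (r + 1) * Jac 0 r x := by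
  have h := congrArg (fun p => Polynomial.eval ((x - 1) / x) p) (rec_Np r)
  simp only [eval_mul, eval_sub, eval_C, eval_add, eval_one, eval_X, eval_pow] at h
  rw [Jac_eq _ x hx, Jac_eq _ x hx, Jac_eq _ x hx]
  have e1 : (1 : ℝ) + (x - 1) / x = (2 * x - 1) / x := by field_simp; ring
  have e2 : (1 : ℝ) - (x - 1) / x = 1 / x := by field_simp; ring
  rw [e1, e2] at h
  have h3 : ((r : ℝ) + 2) * (x ^ (r + 2) * (Np (r + 2)).eval ((x - 1) / x)) =
      x ^ (r + 2) * (((r : ℝ) + 2) * (Np (r + 2)).eval ((x - 1) / x)) := by ring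
  rw [h3, h]
  field_simp
  ring

/-- the decreasing quadratic form -/
noncomputable def Dl (x : ℝ) (r : ℕ) : ℝ :=
  Jac 0 (r + 1) x ^ 2 - 2 * (2 * x - 1) * Jac 0 (r + 1) x * Jac 0 r x + Jac 0 r x ^ 2

theorem Dl_succ (x : ℝ) (hx : x ≠ 0) (r : ℕ) : Dl x (r + 1) ≤ Dl x r := by
  have h := rec_Jac r x hx
  unfold Dl
  rw [show r + 1 + 1 = r + 2 from rfl]
  set a := Jac 0 r x
  set b := Jac 0 (r + 1) x
  set y := 2 * x - 1
  have hr : (0 : ℝ) < (r : ℝ) + 2 := by positivity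
  -- ε = (a - y b) / (r + 2)
  have hc : Jac 0 (r + 2) x = 2 * y * b - a + (a - y * b) / ((r : ℝ) + 2) := by
    field_simp
    linear_combination h
  rw [hc]
  set ε := (a - y * b) / ((r : ℝ) + 2) with hε
  have he : a - y * b = ((r : ℝ) + 2) * ε := by
    rw [hε]
    field_simp
  have key : (2 * y * b - a + ε) ^ 2 - 2 * y * (2 * y * b - a + ε) * b + b ^ 2 =
      (b ^ 2 - 2 * y * b * a + a ^ 2) - (2 * (r : ℝ) + 3) * ε ^ 2 := by
    linear_combination (-2 * ε) * he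
  rw [key]
  have : 0 ≤ (2 * (r : ℝ) + 3) * ε ^ 2 := by positivity
  linarith

theorem Dl_le (x : ℝ) (hx : x ≠ 0) (R r : ℕ) (h : R ≤ r) : Dl x r ≤ Dl x R := by
  induction r, h using Nat.le_induction with
  | base => exact le_rfl
  | succ n _ ih => exact (Dl_succ x hx n).trans ih

theorem bound (x : ℝ) (hx : x ≠ 0) (R : ℕ)
    (hR : Dl x R ≤ (1 - (2 * x - 1) ^ 2) * (1 / 4) ^ 2) (h1 : 0 < 1 - (2 * x - 1) ^ 2)
    (r : ℕ) (h : R + 1 ≤ r) : |Jac 0 r x| ≤ 1 / 4 := by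
  obtain ⟨m, rfl⟩ : ∃ m, r = m + 1 := ⟨r - 1, by omega⟩
  have h2 := (Dl_le x hx R m (by omega)).trans hR
  have h3 : (1 - (2 * x - 1) ^ 2) * Jac 0 (m + 1) x ^ 2 ≤ Dl x m := by
    unfold Dl
    nlinarith [sq_nonneg (Jac 0 m x - (2 * x - 1) * Jac 0 (m + 1) x)]
  have h4 : Jac 0 (m + 1) x ^ 2 ≤ (1 / 4) ^ 2 := by
    have := h3.trans h2
    exact le_of_mul_le_mul_left this h1
  exact abs_le_of_sq_le_sq h4 (by norm_num)

theorem val (n : ℕ) (a : ℤ) (N : ℤ)
    (h : ∑ i ∈ Finset.range (n + 1), ((n.choose i : ℤ)) ^ 2 * (a - 7) ^ i * a ^ (n - i) = N) :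
    Jac 0 n ((a : ℝ) / 7) = (N : ℝ) / 7 ^ n := by
  unfold Jac
  rw [← h]
  push_cast
  rw [Finset.sum_div]
  refine Finset.sum_congr rfl fun i hi => ?_
  have hi' : i ≤ n := Nat.lt_succ_iff.1 (Finset.mem_range.1 hi)
  rw [zero_add, show (7 : ℝ) ^ n = 7 ^ i * 7 ^ (n - i) by rw [← pow_add]; congr 1; omega]
  rw [show ((a : ℝ) / 7 - 1) = ((a : ℝ) - 7) / 7 by ring, div_pow, div_pow]
  field_simp

end JBaux

open JBaux in
/-- (S4) size of the Legendre polynomials for large `r` -/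
theorem stJB : StJB := by
  intro r hr
  have key : ∀ (a : ℤ) (N M : ℤ), a ≠ 0 →
      (∑ i ∈ Finset.range (14 + 1), ((Nat.choose 14 i : ℤ)) ^ 2 * (a - 7) ^ i * a ^ (14 - i) = N) →
      (∑ i ∈ Finset.range (15 + 1), ((Nat.choose 15 i : ℤ)) ^ 2 * (a - 7) ^ i * a ^ (15 - i) = M) →
      0 < 49 - (2 * a - 7) ^ 2 →
      16 * (M ^ 2 - 2 * (2 * a - 7) * M * N + 49 * N ^ 2) ≤
        (49 - (2 * a - 7) ^ 2) * 7 ^ 28 →
      |Jac 0 r ((a : ℝ) / 7)| ≤ 1 / 4 := by
    intro a N M ha hN hM h1 h2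
    have ha' : (a : ℝ) / 7 ≠ 0 := by
      have : (a : ℝ) ≠ 0 := by exact_mod_cast ha
      positivity
    have h1' : (0 : ℝ) < 49 - (2 * a - 7) ^ 2 := by exact_mod_cast h1
    have h2' : (16 : ℝ) * (M ^ 2 - 2 * (2 * a - 7) * M * N + 49 * N ^ 2) ≤
        (49 - (2 * a - 7) ^ 2) * 7 ^ 28 := by exact_mod_cast h2
    refine bound _ ha' 14 ?_ ?_ r (by omega)
    · unfold Dl
      rw [val 14 a N hN, val 15 a M hM]
      have e1 : ((M : ℝ) / 7 ^ 15) ^ 2 - 2 * (2 * ((a : ℝ) / 7) - 1) * ((M : ℝ) / 7 ^ 15) *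
          ((N : ℝ) / 7 ^ 14) + ((N : ℝ) / 7 ^ 14) ^ 2 =
          (M ^ 2 - 2 * (2 * a - 7) * M * N + 49 * N ^ 2) / 7 ^ 30 := by
        field_simp
        ring
      have e2 : (1 - (2 * ((a : ℝ) / 7) - 1) ^ 2) * (1 / 4) ^ 2 =
          ((49 - (2 * a - 7) ^ 2) * 7 ^ 28) / 16 / 7 ^ 30 := by
        field_simp
        ring
      rw [e1, e2]
      gcongr
      linarith
    · have : 1 - (2 * ((a : ℝ) / 7) - 1) ^ 2 = (49 - (2 * a - 7) ^ 2) / 49 := by
        field_simp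
        ring
      rw [this]
      positivity
  refine ⟨?_, ?_, ?_⟩
  · have := key 1 _ _ (by norm_num) rfl rfl (by norm_num) (by decide +kernel)
    simpa using this
  · have := key 2 _ _ (by norm_num) rfl rfl (by norm_num) (by decide +kernel)
    simpa using this
  · have := key 4 _ _ (by norm_num) rfl rfl (by norm_num) (by decide +kernel)
    simpa using this

end Pool.Agent.Lib.MP_7c08ba_nt.RZ
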