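import Mathlib
import Pool.Agent.Lib.MP_7c08ba_nt.RZ.StS7
import Pool.Agent.Lib.MP_7c08ba_nt.RZ.KpB
import Pool.Agent.Lib.MP_7c08ba_nt.RZ.KpV

set_option autoImplicit false

/-!
(S1) the exact derivatives of `Kp` at `-r`.
-/

namespace Pool.Agent.Lib.MP_7c08ba_nt

namespace RZ

namespace KpEaux

open Complex Set KpBaux KpVaux MeasureTheory Filter
open scoped Real Topology

/-- The holomorphic part of the logarithm. -/
noncomputable def Hh (n m : ℕ) (z : ℂ) : ℂ :=
  Complex.log (1 - z) + Complex.log ((n : ℂ) - m * z) - Real.log 2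

variable {k r n m : ℕ}

theorem re_pos (h : m < n) {z : ℂ} (hz : ‖z‖ ≤ 1) : 0 < ((n : ℂ) - m * z).re := by
  have h1 : (m : ℝ) < n := by exact_mod_cast h
  have h2 : z.re ≤ 1 := (Complex.re_le_norm z).trans hz
  have h3 : (0 : ℝ) ≤ m := Nat.cast_nonneg m
  simp only [sub_re, natCast_re, mul_re, natCast_im, zero_mul, sub_zero]
  nlinarith

/-- The point on the circle. -/
theorem circ_eq (φ : ℝ) :
    circleMap 0 1 (2 * π - 2 * φ) = (Complex.exp (φ * I) ^ 2)⁻¹ := by
  rw [circleMap_zero, ← Complex.exp_nat_mul, ← Complex.exp_neg]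
  have : (((2 * π - 2 * φ : ℝ) : ℂ) * I) = -((2 : ℕ) * (φ * I)) + 2 * π * I := by
    push_cast; ring
  rw [this, Complex.exp_add, Complex.exp_two_pi_mul_I]
  simp

theorem norm_circ (θ : ℝ) : ‖circleMap 0 1 θ‖ = 1 := by simp [circleMap_zero]

/-- The logarithms. -/
theorem logs (h : m < n) {φ : ℝ} (h0 : 0 < φ) (h1 : φ < π) :
    Complex.log (Real.sin φ) + Complex.log (Ab n m φ) =
      Hh n m (circleMap 0 1 (2 * π - 2 * φ)) + I * (π - ((2 * π - 2 * φ : ℝ) : ℂ)) := by
  set q : ℂ := circleMap 0 1 (2 * π - 2 * φ) with hq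
  have hq1 : ‖q‖ ≤ 1 := (norm_circ _).le
  set e : ℂ := Complex.exp (φ * I) with he
  have he0 : e ≠ 0 := Complex.exp_ne_zero _
  have hqe : q = (e ^ 2)⁻¹ := circ_eq φ
  have hsin : 0 < Real.sin φ := Real.sin_pos_of_pos_of_lt_pi h0 h1
  have hs : (Real.sin φ : ℂ) = I / 2 * e * ((e ^ 2)⁻¹ - 1) := by
    rw [Complex.ofReal_sin, Complex.sin]
    have : Complex.exp (-φ * I) = e⁻¹ := by rw [he, ← Complex.exp_neg]; congr 1; ring
    rw [this, ← he]
    field_simp
  have hc : (Real.cos φ : ℂ) = (e + e⁻¹) / 2 := by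
    rw [Complex.ofReal_cos, Complex.cos]
    have : Complex.exp (-φ * I) = e⁻¹ := by rw [he, ← Complex.exp_neg]; congr 1; ring
    rw [this, ← he]
  have hhalf : Complex.exp (π / 2 * I) = I := Complex.exp_pi_div_two_mul_I
  -- first logarithm
  have e1 : 1 - q = ((2 * Real.sin φ : ℝ) : ℂ) * Complex.exp (((π / 2 - φ : ℝ) : ℂ) * I) := by
    have e2 : Complex.exp (((π / 2 - φ : ℝ) : ℂ) * I) = I * e⁻¹ := by
      rw [he, ← Complex.exp_neg]
      nth_rewrite 2 [← hhalf]
      rw [← Complex.exp_add]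
      congr 1
      push_cast
      ring
    rw [e2, hqe, Complex.ofReal_mul, hs]
    have hI := Complex.I_mul_I
    field_simp
    push_cast
    linear_combination 2 * (e ^ 2 - 1) * hI
  have e3 : Complex.log (1 - q) = Real.log 2 + Complex.log (Real.sin φ) +
      ((π / 2 - φ : ℝ) : ℂ) * I := by
    rw [e1, Complex.log_ofReal_mul (by positivity) (Complex.exp_ne_zero _), Complex.log_exp,
      Real.log_mul two_ne_zero hsin.ne', ← Complex.ofReal_log hsin.le]
    · push_cast
      ring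
    · simp only [mul_im, ofReal_re, I_im, mul_one, ofReal_im, I_re, mul_zero, add_zero]
      linarith
    · simp only [mul_im, ofReal_re, I_im, mul_one, ofReal_im, I_re, mul_zero, add_zero]
      linarith [Real.pi_pos]
  -- second logarithm
  have e4 : Ab n m φ = Complex.exp (((φ - π / 2 : ℝ) : ℂ) * I + Complex.log ((n : ℂ) - m * q)) := by
    have hne : (n : ℂ) - m * q ≠ 0 := by
      intro h3
      have := re_pos h hq1
      rw [h3, zero_re] at this
      exact lt_irrefl _ this
    have e2 : Complex.exp (((φ - π / 2 : ℝ) : ℂ) * I) = -I * e := by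
      have e5 : ((φ - π / 2 : ℝ) : ℂ) * I = φ * I - π / 2 * I := by
        push_cast
        ring
      rw [e5, Complex.exp_sub, hhalf, ← he, div_I]
      ring
    rw [Complex.exp_add, e2, Complex.exp_log hne, KpBaux.Ab, hs, hc, hqe]
    field_simp
    ring
  have e5 : Complex.log (Ab n m φ) = ((φ - π / 2 : ℝ) : ℂ) * I +
      Complex.log ((n : ℂ) - m * q) := by
    have h3 : |((n : ℂ) - m * q).arg| < π / 2 :=
      Complex.abs_arg_lt_pi_div_two_iff.2 (Or.inl (re_pos h hq1))
    rw [abs_lt] at h3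
    have h4 : (((φ - π / 2 : ℝ) : ℂ) * I + Complex.log ((n : ℂ) - m * q)).im =
        φ - π / 2 + ((n : ℂ) - m * q).arg := by
      simp only [add_im, mul_im, ofReal_re, I_im, mul_one, ofReal_im, I_re, mul_zero, add_zero,
        Complex.log_im]
    rw [e4, Complex.log_exp]
    · rw [h4]
      linarith [h3.1]
    · rw [h4]
      linarith [h3.2]
  rw [e5, Hh, e3]
  push_cast
  ring

/-- The derivative of the integrand on the circle. -/
theorem gI'_eq (h : m < n) {φ : ℝ} (h0 : 0 < φ) (h1 : φ < π) :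
    gI' k r n m (-r) φ = -((2 : ℂ) ^ (k + r))⁻¹ *
      (deriv (circleMap 0 1) (2 * π - 2 * φ) •
        (gz r (k + r) n m (circleMap 0 1 (2 * π - 2 * φ)) *
          Hh n m (circleMap 0 1 (2 * π - 2 * φ))) +
      deriv (circleMap 0 1) (2 * π - 2 * φ) •
        gz r (k + r) n m (circleMap 0 1 (2 * π - 2 * φ)) *
          (I * (π - ((2 * π - 2 * φ : ℝ) : ℂ)))) := by
  have e1 : gI k r n m (-r) φ = -((2 : ℂ) ^ (k + r))⁻¹ *
      (deriv (circleMap 0 1) (2 * π - 2 * φ) •
        gz r (k + r) n m (circleMap 0 1 (2 * π - 2 * φ))) := by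
    rw [← ptw]
    unfold gI
    have h2 : (-(r : ℂ) - k - 1) = -((k + r + 1 : ℕ) : ℂ) := by push_cast; ring
    have h3 : (-(r : ℂ) + k + 2 * r) = ((k + r : ℕ) : ℂ) := by push_cast; ring
    rw [h2, h3, Complex.cpow_neg, Complex.cpow_natCast, Complex.cpow_natCast]
    rfl
  rw [gI', e1, logs h h0 h1]
  simp only [smul_eq_mul]
  ring

/-- `(1 - z) log (1 - z)` is continuous. -/
theorem cont_B : ContinuousOn (fun z : ℂ => (1 - z) * Complex.log (1 - z))
    (Metric.closedBall 0 1) := by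
  intro z hz
  by_cases h : z = 1
  · subst h
    refine ContinuousAt.continuousWithinAt ?_
    rw [ContinuousAt, sub_self, zero_mul]
    have h1 : Tendsto (fun z : ℂ => |‖1 - z‖ * Real.log ‖1 - z‖| + π * ‖1 - z‖) (𝓝 1) (𝓝 0) := by
      have h2 : Continuous fun z : ℂ => |‖1 - z‖ * Real.log ‖1 - z‖| + π * ‖1 - z‖ := by
        have h3 : Continuous fun z : ℂ => ‖1 - z‖ := (continuous_const.sub continuous_id).norm
        exact ((Real.continuous_mul_log.comp h3).abs).add (continuous_const.mul h3)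
      have h4 := h2.tendsto 1
      simpa using h4
    refine squeeze_zero_norm (fun z => ?_) h1
    rw [norm_mul, abs_mul, abs_norm, mul_comm π, ← mul_add]
    refine mul_le_mul_of_nonneg_left ?_ (norm_nonneg _)
    refine (Complex.norm_le_abs_re_add_abs_im _).trans ?_
    rw [Complex.log_re, Complex.log_im]
    exact add_le_add le_rfl (Complex.abs_arg_le_pi _)
  · refine ContinuousAt.continuousWithinAt ?_
    have h1 : (1 - z) ∈ slitPlane := by
      rw [mem_slitPlane_iff]
      by_contra hcon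
      push Not at hcon
      obtain ⟨h2, h3⟩ := hcon
      simp only [sub_re, one_re, sub_im, one_im, zero_sub, neg_eq_zero] at h2 h3
      have h4 : ‖z‖ ≤ 1 := by simpa using hz
      have h5 := (Complex.re_le_norm z).trans h4
      exact h (Complex.ext (by simp; linarith) (by simp [h3]))
    exact (continuousAt_const.sub continuousAt_id).mul
      ((continuousAt_const.sub continuousAt_id).clog h1)

theorem gz_ne (h : m < n) {z : ℂ} (hz : ‖z‖ ≤ 1) : (m : ℂ) * z - n ≠ 0 := by
  intro h3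
  have := re_pos h hz
  rw [← neg_sub, h3, neg_zero, zero_re] at this
  exact lt_irrefl _ this

theorem cont_F (h : m < n) (hr : 1 ≤ r) :
    ContinuousOn (fun z => gz r (k + r) n m z * Hh n m z) (Metric.closedBall 0 1) := by
  have h1 : (fun z => gz r (k + r) n m z * Hh n m z) = fun z =>
      z ^ r * (((m : ℂ) * z - n) ^ (k + r + 1))⁻¹ * (-(z - 1) ^ (k + r - 1) *
        ((1 - z) * Complex.log (1 - z)) + (z - 1) ^ (k + r) *
          (Complex.log ((n : ℂ) - m * z) - Real.log 2)) := by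
    funext z
    unfold gz Hh
    obtain ⟨K, hK⟩ : ∃ K, k + r = K + 1 := ⟨k + r - 1, by omega⟩
    rw [hK, Nat.add_sub_cancel, pow_succ (z - 1) K]
    ring
  rw [h1]
  have h2 : ContinuousOn (fun z : ℂ => z ^ r * (((m : ℂ) * z - n) ^ (k + r + 1))⁻¹)
      (Metric.closedBall 0 1) := by
    refine ContinuousOn.mul (by fun_prop) (ContinuousOn.inv₀ (by fun_prop) ?_)
    intro z hz
    exact pow_ne_zero _ (gz_ne h (by simpa using hz))
  have h3 : ContinuousOn (fun z : ℂ => Complex.log ((n : ℂ) - m * z)) (Metric.closedBall 0 1) := by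
    refine ContinuousOn.clog (by fun_prop) fun z hz => ?_
    rw [mem_slitPlane_iff]
    exact Or.inl (re_pos h (by simpa using hz))
  exact h2.mul ((ContinuousOn.mul (by fun_prop) cont_B).add
    (ContinuousOn.mul (by fun_prop) (h3.sub continuousOn_const)))

theorem int_F (h : m < n) (hr : 1 ≤ r) :
    (∮ z in C(0, 1), gz r (k + r) n m z * Hh n m z) = 0 := by
  refine Complex.circleIntegral_eq_zero_of_differentiable_on_off_countable zero_le_one
    Set.countable_empty (cont_F h hr) ?_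
  intro z hz
  have hz1 : ‖z‖ < 1 := by simpa using hz.1
  have h1 : (1 - z) ∈ slitPlane := by
    rw [mem_slitPlane_iff]
    left
    have := Complex.re_le_norm z
    simp only [sub_re, one_re]
    linarith
  have h2 : ((n : ℂ) - m * z) ∈ slitPlane := by
    rw [mem_slitPlane_iff]
    exact Or.inl (re_pos h hz1.le)
  unfold gz Hh
  refine DifferentiableAt.mul (DifferentiableAt.mul (by fun_prop)
    (DifferentiableAt.inv (by fun_prop) (pow_ne_zero _ (gz_ne h hz1.le)))) ?_
  exact ((DifferentiableAt.clog (by fun_prop) h1).add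
    (DifferentiableAt.clog (by fun_prop) h2)).sub_const _

/-- The primitive. -/
theorem exists_G (h : m < n) (hm : 1 ≤ m) (r K : ℕ) : ∃ (ρ : ℝ) (G : ℂ → ℂ), 1 < ρ ∧
    ∀ z, ‖z‖ < ρ → HasDerivAt G (gz r K n m z) z := by
  have hm0 : (0 : ℝ) < m := by exact_mod_cast hm
  have hmn : (m : ℝ) < n := by exact_mod_cast h
  have hd : DifferentiableOn ℂ (gz r K n m) (Metric.ball 0 ((n : ℝ) / m)) := by
    intro z hz
    refine DifferentiableAt.differentiableWithinAt ?_
    have hz1 : ‖z‖ < n / m := by simpa using hz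
    have hne : (m : ℂ) * z - n ≠ 0 := by
      intro h1
      rw [sub_eq_zero] at h1
      have h2 := congrArg norm h1
      rw [norm_mul, Complex.norm_natCast, Complex.norm_natCast] at h2
      rw [lt_div_iff₀ hm0] at hz1
      linarith
    unfold gz
    exact DifferentiableAt.mul (by fun_prop)
      (DifferentiableAt.inv (by fun_prop) (pow_ne_zero _ hne))
  obtain ⟨G, hG⟩ := hd.isExactOn_ball
  refine ⟨n / m, G, ?_, fun z hz => hG z (by simpa using hz)⟩
  rw [one_lt_div hm0]
  exact hmn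

theorem gz_real (x : ℝ) : gz r (k + r) n m x =
    -(((x ^ r * (1 - x) ^ (k + r) * (((n : ℝ) - m * x) ^ (k + r + 1))⁻¹ : ℝ)) : ℂ) := by
  unfold gz
  push_cast
  have h1 : ((x : ℂ) - 1) ^ (k + r) = (-1) ^ (k + r) * (1 - x) ^ (k + r) := by
    rw [← mul_pow]
    congr 1
    ring
  have h2 : (((m : ℂ) * x - n) ^ (k + r + 1))⁻¹ =
      (-1) ^ (k + r + 1) * (((n : ℂ) - m * x) ^ (k + r + 1))⁻¹ := by
    have h3 : ((m : ℂ) * x - n) = (-1) * ((n : ℂ) - m * x) := by ring
    rw [h3, mul_pow, mul_inv, ← inv_pow, inv_neg_one]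
  rw [h1, h2]
  have h4 : ((-1 : ℂ)) ^ (k + r) * (-1) ^ (k + r + 1) = -1 := by
    rw [← pow_add, show k + r + (k + r + 1) = 2 * (k + r) + 1 by ring, pow_succ, pow_mul]
    simp
  linear_combination ((x : ℂ) ^ r * (1 - x) ^ (k + r) * (((n : ℂ) - m * x) ^ (k + r + 1))⁻¹) * h4

theorem int_real (h : m < n) (hm : 1 ≤ m) {ρ : ℝ} {G : ℂ → ℂ} (hρ : 1 < ρ)
    (hG : ∀ z, ‖z‖ < ρ → HasDerivAt G (gz r (k + r) n m z) z) :
    G 1 - G 0 = -((JI k r n m : ℝ) : ℂ) := by
  have h1 : ∀ x ∈ uIcc (0 : ℝ) 1, HasDerivAt (fun x : ℝ => G x) (gz r (k + r) n m x) x := by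
    intro x hx
    rw [uIcc_of_le zero_le_one] at hx
    refine (hG x ?_).comp_ofReal
    rw [Complex.norm_real, Real.norm_of_nonneg hx.1]
    exact hx.2.trans_lt hρ
  have hcont : ContinuousOn (fun x : ℝ => x ^ r * (1 - x) ^ (k + r) *
      (((n : ℝ) - m * x) ^ (k + r + 1))⁻¹) (uIcc 0 1) := by
    refine ContinuousOn.mul (by fun_prop) (ContinuousOn.inv₀ (by fun_prop) ?_)
    intro x hx
    rw [uIcc_of_le zero_le_one] at hx
    refine pow_ne_zero _ (ne_of_gt ?_)
    have h2 : (m : ℝ) < n := by exact_mod_cast h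
    have h3 : (0 : ℝ) < m := by exact_mod_cast hm
    nlinarith [hx.1, hx.2]
  have hint : IntervalIntegrable (fun x : ℝ => gz r (k + r) n m x) volume 0 1 := by
    have e1 : (fun x : ℝ => gz r (k + r) n m x) = fun x : ℝ =>
        -(((x ^ r * (1 - x) ^ (k + r) * (((n : ℝ) - m * x) ^ (k + r + 1))⁻¹ : ℝ)) : ℂ) := by
      funext x
      exact gz_real x
    rw [e1]
    exact (Complex.continuous_ofReal.comp_continuousOn hcont).neg.intervalIntegrable
  have h2 := intervalIntegral.integral_eq_sub_of_hasDerivAt h1 hint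
  simp only [Complex.ofReal_one, Complex.ofReal_zero] at h2
  rw [← h2]
  simp only [gz_real]
  rw [intervalIntegral.integral_neg, intervalIntegral.integral_ofReal]
  rfl

theorem int_lin (h : m < n) (hm : 1 ≤ m) (k r : ℕ) :
    ∫ θ in (0 : ℝ)..2 * π, deriv (circleMap 0 1) θ • gz r (k + r) n m (circleMap 0 1 θ) *
      (I * (π - (θ : ℂ))) = 2 * π * I * (JI k r n m : ℂ) := by
  obtain ⟨ρ, G, hρ, hG⟩ := exists_G h hm r (k + r)
  have hG1 : ∀ θ : ℝ, HasDerivAt (fun θ : ℝ => G (circleMap 0 1 θ))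
      (deriv (circleMap 0 1) θ • gz r (k + r) n m (circleMap 0 1 θ)) θ := by
    intro θ
    have h1 := (hG (circleMap 0 1 θ) (by rw [norm_circ]; exact hρ)).scomp_of_eq θ
      (hasDerivAt_circleMap 0 1 θ) rfl
    have h2 := (hasDerivAt_circleMap 0 1 θ).deriv
    rw [h2]
    exact h1
  have hu : ∀ θ : ℝ, HasDerivAt (fun θ : ℝ => I * (π - (θ : ℂ))) (-I) θ := by
    intro θ
    have h1 := ((hasDerivAt_const θ (π : ℂ)).sub (Complex.ofRealCLM.hasDerivAt (x := θ))).const_mul I
    simpa using h1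
  have hgc : Continuous fun θ : ℝ =>
      deriv (circleMap 0 1) θ • gz r (k + r) n m (circleMap 0 1 θ) := by
    have h1 : Continuous fun θ : ℝ => gz r (k + r) n m (circleMap 0 1 θ) := by
      unfold gz
      have h2 : Continuous fun θ : ℝ => circleMap (0 : ℂ) 1 θ := continuous_circleMap 0 1
      refine Continuous.mul (by fun_prop) (Continuous.inv₀ (by fun_prop) fun θ => ?_)
      exact pow_ne_zero _ (gz_ne h (norm_circ θ).le)
    have h2 : Continuous fun θ : ℝ => deriv (circleMap 0 1) θ := by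
      simp only [deriv_circleMap]
      exact (continuous_circleMap 0 1).mul continuous_const
    exact h2.smul h1
  have h1 := intervalIntegral.integral_mul_deriv_eq_deriv_mul (a := 0) (b := 2 * π)
    (fun θ _ => hu θ) (fun θ _ => hG1 θ) (intervalIntegrable_const)
    (hgc.intervalIntegrable 0 (2 * π))
  have h2 : (∫ θ in (0 : ℝ)..2 * π, deriv (circleMap 0 1) θ • gz r (k + r) n m
      (circleMap 0 1 θ) * (I * (π - (θ : ℂ)))) =
      ∫ θ in (0 : ℝ)..2 * π, I * (π - (θ : ℂ)) * (deriv (circleMap 0 1) θ •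
        gz r (k + r) n m (circleMap 0 1 θ)) := by
    congr 1
    funext θ
    ring
  have h3 : ∫ θ in (0 : ℝ)..2 * π, G (circleMap 0 1 θ) = 2 * π * G 0 := by
    have h4 : Real.circleAverage G 0 1 = G 0 := by
      refine DiffContOnCl.circleAverage ?_
      rw [abs_one]
      refine DifferentiableOn.diffContOnCl_ball (U := Metric.ball 0 ρ) ?_ ?_
      · intro z hz
        exact (hG z (by simpa using hz)).differentiableAt.differentiableWithinAt
      · exact Metric.closedBall_subset_ball hρ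
    rw [Real.circleAverage_def] at h4
    rw [← h4, Complex.real_smul]
    have hpi : (π : ℂ) ≠ 0 := by exact_mod_cast Real.pi_ne_zero
    push_cast
    field_simp
  rw [h2, h1, intervalIntegral.integral_const_mul, h3]
  have h4 : circleMap 0 1 (2 * π) = 1 := by
    rw [circleMap_zero]
    push_cast
    rw [Complex.exp_two_pi_mul_I]
    simp
  have h5 : circleMap 0 1 0 = 1 := by simp [circleMap_zero]
  rw [h4, h5]
  have h6 := int_real (k := k) h hm hρ hG
  push_cast
  linear_combination (-2 * π * I) * h6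

/-- The integral of the derivative. -/
theorem int_gI' (h : m < n) (hm : 1 ≤ m) (hr : 1 ≤ r) :
    ∫ φ in (0 : ℝ)..π, gI' k r n m (-r) φ =
      -(π * I * ((2 : ℂ) ^ (k + r))⁻¹ * (JI k r n m : ℂ)) := by
  let f : ℝ → ℂ := fun θ => -((2 : ℂ) ^ (k + r))⁻¹ *
    (deriv (circleMap 0 1) θ • (gz r (k + r) n m (circleMap 0 1 θ) *
      Hh n m (circleMap 0 1 θ)) + deriv (circleMap 0 1) θ • gz r (k + r) n m (circleMap 0 1 θ) *
        (I * (π - (θ : ℂ))))
  have h1 : ∫ φ in (0 : ℝ)..π, gI' k r n m (-r) φ = ∫ φ in (0 : ℝ)..π, f (2 * π - 2 * φ) := by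
    refine intervalIntegral.integral_congr_ae ?_
    have h2 : ∀ᵐ φ : ℝ ∂volume, φ ≠ π := by
      rw [ae_iff]
      simp
    filter_upwards [h2] with φ h3 h4
    rw [uIoc_of_le Real.pi_pos.le] at h4
    exact gI'_eq h h4.1 (lt_of_le_of_ne h4.2 h3)
  have h2 := intervalIntegral.integral_comp_sub_mul (a := 0) (b := π) f (two_ne_zero' ℝ) (2 * π)
  simp only [mul_zero, sub_zero, sub_self] at h2
  have hi1 : IntervalIntegrable (fun θ : ℝ => deriv (circleMap 0 1) θ •
      (gz r (k + r) n m (circleMap 0 1 θ) * Hh n m (circleMap 0 1 θ))) volume 0 (2 * π) := by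
    have h3 : Continuous fun θ : ℝ => gz r (k + r) n m (circleMap 0 1 θ) *
        Hh n m (circleMap 0 1 θ) := by
      refine (cont_F (k := k) h hr).comp_continuous (continuous_circleMap 0 1) fun θ => ?_
      rw [mem_closedBall_zero_iff, norm_circ]
    have h4 : Continuous fun θ : ℝ => deriv (circleMap 0 1) θ := by
      simp only [deriv_circleMap]
      exact (continuous_circleMap 0 1).mul continuous_const
    exact (h4.smul h3).intervalIntegrable _ _
  have hi2 : IntervalIntegrable (fun θ : ℝ => deriv (circleMap 0 1) θ •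
      gz r (k + r) n m (circleMap 0 1 θ) * (I * (π - (θ : ℂ)))) volume 0 (2 * π) := by
    have h3 : Continuous fun θ : ℝ => gz r (k + r) n m (circleMap 0 1 θ) := by
      unfold gz
      have h2 : Continuous fun θ : ℝ => circleMap (0 : ℂ) 1 θ := continuous_circleMap 0 1
      refine Continuous.mul (by fun_prop) (Continuous.inv₀ (by fun_prop) fun θ => ?_)
      exact pow_ne_zero _ (gz_ne h (norm_circ θ).le)
    have h4 : Continuous fun θ : ℝ => deriv (circleMap 0 1) θ := by
      simp only [deriv_circleMap]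
      exact (continuous_circleMap 0 1).mul continuous_const
    exact ((h4.smul h3).mul (by fun_prop)).intervalIntegrable _ _
  have h3 : ∫ θ in (0 : ℝ)..2 * π, f θ = -((2 : ℂ) ^ (k + r))⁻¹ *
      ((∮ z in C(0, 1), gz r (k + r) n m z * Hh n m z) + 2 * π * I * (JI k r n m : ℂ)) := by
    show ∫ θ in (0 : ℝ)..2 * π, -((2 : ℂ) ^ (k + r))⁻¹ * _ = _
    rw [intervalIntegral.integral_const_mul, intervalIntegral.integral_add hi1 hi2, int_lin h hm]
    rfl
  rw [h1, h2, h3, int_F h hr, zero_add, Complex.real_smul]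
  push_cast
  ring

end KpEaux

open KpBaux KpEaux in
/-- (S1) the exact derivatives of `Kp` at `-r` -/
theorem stKpE (h2 : StKpV) : StKpE := by
  intro k r n m hr hm hmn
  obtain ⟨-, hd⟩ := main_deriv (k := k) hmn hr
  let f : ℂ → ℂ := fun t => Complex.Gamma (k + 1 - t) * (2 * Real.pi : ℂ) ^ (t - k - 1)
  have hpi : (2 * Real.pi : ℂ) ≠ 0 := by
    simp [Real.pi_ne_zero]
  have hre : ∀ j : ℕ, ((k : ℂ) + 1 - (-r)) ≠ -j := by
    intro j h
    have h3 := congrArg Complex.re h
    simp at h3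
    have : (0 : ℝ) ≤ k := Nat.cast_nonneg k
    have : (0 : ℝ) ≤ r := Nat.cast_nonneg r
    have : (0 : ℝ) ≤ j := Nat.cast_nonneg j
    linarith
  have hf : DifferentiableAt ℂ f (-r) := by
    refine DifferentiableAt.mul ?_ ?_
    · exact (Complex.differentiableAt_Gamma _ hre).comp (-r : ℂ)
        ((differentiableAt_const _).sub differentiableAt_id)
    · exact ((differentiableAt_id.sub_const _).sub_const _).const_cpow (Or.inl hpi)
  have hK : Kp k r n m = fun t => f t * ∫ φ in (0 : ℝ)..Real.pi, gI k r n m t φ := rfl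
  have e1 : ((k : ℂ) + 1 - (-r)) = ((k + r : ℕ) : ℂ) + 1 := by
    push_cast
    ring
  have hfv : f (-r) = ((k + r).factorial : ℂ) * ((2 * Real.pi : ℂ) ^ (k + r + 1))⁻¹ := by
    change Complex.Gamma (k + 1 - (-r)) * (2 * Real.pi : ℂ) ^ ((-r : ℂ) - k - 1) = _
    have e2 : (-r : ℂ) - k - 1 = -((k + r + 1 : ℕ) : ℂ) := by
      push_cast
      ring
    rw [e1, Complex.Gamma_nat_eq_factorial, e2, Complex.cpow_neg, Complex.cpow_natCast]
  have hf0 : f (-r) ≠ 0 := by
    rw [hfv]
    exact mul_ne_zero (Nat.cast_ne_zero.2 (Nat.factorial_ne_zero _))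
      (inv_ne_zero (pow_ne_zero _ hpi))
  have hI : ∫ φ in (0 : ℝ)..Real.pi, gI k r n m (-r) φ = 0 := by
    have h3 := (h2 k r n m hm).2 hmn
    rw [hK] at h3
    exact (mul_eq_zero.1 h3).resolve_left hf0
  have h4 := (hf.hasDerivAt.mul hd).deriv
  have h5 : deriv (Kp k r n m) (-r) = f (-r) * ∫ φ in (0 : ℝ)..Real.pi, gI' k r n m (-r) φ := by
    rw [hK]
    refine h4.trans ?_
    rw [hI, mul_zero, zero_add]
  rw [h5, hfv, int_gI' hmn hm hr]
  have h6 : ((4 * Real.pi : ℂ) ^ (k + r + 1))⁻¹ = ((2 : ℂ) ^ (k + r + 1))⁻¹ *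
      ((2 * Real.pi : ℂ) ^ (k + r + 1))⁻¹ := by
    rw [← mul_inv, ← mul_pow]
    congr 2
    ring
  rw [h6, pow_succ (2 : ℂ) (k + r), mul_inv]
  ring

end RZ

end Pool.Agent.Lib.MP_7c08ba_nt
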