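import Mathlib
import Pool.Agent.Lib.MP_7c08ba_nt.RZ.C.Basis
import Pool.Agent.Lib.MP_7c08ba_nt.RZ.Defs

set_option autoImplicit false

/-!
The class number of the field of discriminant `-7`.
-/

namespace Pool.Agent.Lib.MP_7c08ba_nt

namespace RZ

namespace ClA

open NumberField Module RZC RZC.BasisAux

variable {F : Type} [Field F] [NumberField F] {s : F}

theorem discr_seven (hF : finrank ℚ F = 2) (hs : s ^ 2 = -(7 : F)) : |discr F| = 7 := by
  have hFC : FieldC 7 F s := ⟨by norm_num, by norm_num, hF, by exact_mod_cast hs⟩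
  obtain ⟨θ, hθ⟩ := exists_theta hFC
  obtain ⟨B, hB0, hB1⟩ := exists_intBasis hFC hθ
  have hsq : θ * θ = θ - 2 := by
    apply RingOfIntegers.ext
    have h1 : (2 : F) * (2 : F) * ((θ : F) * (θ : F)) = (2 : F) * (2 : F) * ((θ : F) - 2) := by
      have h2 : (2 : F) * (θ : F) * (2 * (θ : F)) = (1 + s) * (1 + s) := by rw [hθ]
      linear_combination h2 + hs - 2 * hθ
    have h3 := mul_left_cancel₀ (mul_ne_zero two_ne_zero two_ne_zero) h1
    have h4 : algebraMap (𝓞 F) F 2 = 2 := map_ofNat _ 2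
    change algebraMap (𝓞 F) F (θ * θ) = algebraMap (𝓞 F) F (θ - 2)
    rw [map_mul, map_sub, h4]
    exact h3
  have ht1 : Algebra.trace ℤ (𝓞 F) θ = 1 := by
    rw [Algebra.trace_eq_matrix_trace B, Matrix.trace_fin_two,
      Algebra.leftMulMatrix_eq_repr_mul, Algebra.leftMulMatrix_eq_repr_mul]
    have e0 : θ * B 0 = B 1 := by rw [hB0, hB1, mul_one]
    have e1 : θ * B 1 = B 1 - (2 : ℤ) • B 0 := by
      rw [hB0, hB1, hsq]
      simp
    rw [e0, e1, map_sub, map_smul, Basis.repr_self, Basis.repr_self]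
    simp
  have hr : finrank ℤ (𝓞 F) = 2 := by rw [RingOfIntegers.rank, hF]
  have ht0 : Algebra.trace ℤ (𝓞 F) (1 : 𝓞 F) = 2 := by
    have := Algebra.trace_algebraMap (S := 𝓞 F) (1 : ℤ)
    rw [map_one, hr] at this
    simpa using this
  have ht2 : Algebra.trace ℤ (𝓞 F) (θ * θ) = -3 := by
    have h2 : Algebra.trace ℤ (𝓞 F) ((2 : ℤ) : 𝓞 F) = 4 := by
      have := Algebra.trace_algebraMap (S := 𝓞 F) (2 : ℤ)
      rw [hr] at this
      simpa using this
    rw [hsq, map_sub, ht1]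
    push_cast at h2
    rw [h2]
    norm_num
  have h1 : Algebra.discr ℤ B = discr F := discr_eq_discr F B
  rw [← h1, Algebra.discr_def, Matrix.det_fin_two]
  simp only [Algebra.traceMatrix_apply, Algebra.traceForm_apply]
  rw [hB0, hB1, mul_one, mul_one, one_mul, ht0, ht1, ht2]
  norm_num

theorem pid_seven (hF : finrank ℚ F = 2) (hs : s ^ 2 = -(7 : F)) : IsPrincipalIdealRing (𝓞 F) := by
  apply RingOfIntegers.isPrincipalIdealRing_of_abs_discr_lt
  have h2 := discr_seven hF hs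
  have h4 := InfinitePlace.card_add_two_mul_card_eq_rank F
  rw [hF] at h4
  have h5 : InfinitePlace.nrComplexPlaces F ≤ 1 := by omega
  have hpi := Real.pi_gt_d2
  have hpi4 : Real.pi / 4 ≤ 1 := by
    have := Real.pi_le_four
    linarith
  have h6 : Real.pi / 4 ≤ (Real.pi / 4) ^ InfinitePlace.nrComplexPlaces F := by
    calc Real.pi / 4 = (Real.pi / 4) ^ 1 := (pow_one _).symm
      _ ≤ _ := pow_le_pow_of_le_one (by positivity) hpi4 h5
  rw [hF]
  have h7 : (((2 : ℕ) : ℝ) ^ 2 / (Nat.factorial 2 : ℕ)) = 2 := by norm_num [Nat.factorial]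
  rw [h7, h2]
  have h8 : Real.pi ≤ 2 * (Real.pi / 4) ^ InfinitePlace.nrComplexPlaces F * 2 := by linarith
  have h9 : (9 : ℝ) < Real.pi ^ 2 := by nlinarith
  have h10 : Real.pi ^ 2 ≤ (2 * (Real.pi / 4) ^ InfinitePlace.nrComplexPlaces F * 2) ^ 2 :=
    pow_le_pow_left₀ Real.pi_pos.le h8 2
  push_cast
  linarith

/-- The class number of the field of discriminant `-7` is one. -/
theorem class_seven (hF : finrank ℚ F = 2) (hs : s ^ 2 = -(7 : F)) :
    Fintype.card (ClassGroup (𝓞 F)) = 1 :=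
  (classNumber_eq_one_iff).2 (pid_seven hF hs)

/-- All characters of type `(0, 0)` are trivial. -/
theorem hecke_seven (hF : finrank ℚ F = 2) (hs : s ^ 2 = -(7 : F)) {σ : F →+* ℂ}
    {ψ : Ideal (𝓞 F) →*₀ ℂ} (hψ : IsHecke σ 0 ψ) (a : Ideal (𝓞 F)) (ha : a ≠ ⊥) : ψ a = 1 := by
  have hp := pid_seven hF hs
  obtain ⟨t, rfl⟩ := (hp.principal a).principal
  rw [Ideal.submodule_span_eq] at ha ⊢
  rw [hψ t (by
    rintro rfl
    simp at ha), pow_zero]

end ClA

end RZ

end Pool.Agent.Lib.MP_7c08ba_nt
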