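import Mathlib
import Pool.Agent.Lib.MP_7c08ba_nt.RZ.StS7
import Pool.Agent.Lib.MP_7c08ba_nt.RZ.S7.Cl7
import Pool.Agent.Lib.MP_7c08ba_nt.RZ.MainR
import Pool.Agent.Lib.MP_7c08ba_nt.RZ.EqR

set_option autoImplicit false

/-!
(S6) the analytic part of the theorem for the field of discriminant `-7`.
-/

namespace Pool.Agent.Lib.MP_7c08ba_nt

namespace RZ

open NumberField MeasureTheory UpperHalfPlane Set IsDedekindDomain
open scoped MatrixGroups ComplexConjugate nonZeroDivisors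

/-- (S7) the class number formula -/
def StL1 : Prop :=
  ∀ (D : ℕ) (_ : NeZero D) (F : Type) (_ : Field F) (_ : NumberField F) (s : 𝓞 F)
    (σ : F →+* ℂ) (χ : DirichletCharacter ℂ D) (cj : 𝓞 F ≃+* 𝓞 F), DatD D s σ χ cj →
    DirichletCharacter.LFunction χ 1 =
      ((Real.pi / Real.sqrt D * (Fintype.card (ClassGroup (𝓞 F)) : ℝ) : ℝ) : ℂ)

namespace SevenA

/-! ### spaces without cusp forms -/

theorem zero_ten (f : CuspForm 𝒮ℒ ((10 : ℕ) : ℤ)) : f = 0 :=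
  rank_zero_iff_forall_zero.mp
    (CuspForm.rank_eq_zero_of_weight_lt_twelve (by norm_num)) f

theorem zero_fourteen (f : CuspForm 𝒮ℒ ((14 : ℕ) : ℤ)) : f = 0 := by
  have h : Module.rank ℂ (CuspForm 𝒮ℒ ((14 : ℕ) : ℤ)) = 0 := by
    have h1 := (CuspForm.discriminantEquiv (k := ((14 : ℕ) : ℤ))).rank_eq
    have h2 : (((14 : ℕ) : ℤ) - 12) = 2 := by norm_num
    rw [h1, h2]
    exact ModularForm.levelOne_weight_two_rank_zero
  exact rank_zero_iff_forall_zero.mp h f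

/-! ### the finite sum for `D = 7` -/

theorem BB_seven (r : ℕ) : BB 7 r = -(2 * Real.log 3 * Jac 0 r (1 / 7) +
    2 * Real.log 5 * Jac 0 r (2 / 7) + 3 * Real.log 3 * Jac 0 r (4 / 7)) := by
  have d1 : (1 : ℕ).divisors = {1} := by decide
  have d2 : (2 : ℕ).divisors = {1, 2} := by decide
  have d3 : (3 : ℕ).divisors = {1, 3} := by decide
  have d4 : (4 : ℕ).divisors = {1, 2, 4} := by decide
  have d5 : (5 : ℕ).divisors = {1, 5} := by decide
  have d6 : (6 : ℕ).divisors = {1, 2, 3, 6} := by decide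
  have j1 : jacobiSym 1 7 = 1 := by norm_num
  have j2 : jacobiSym 2 7 = 1 := by norm_num
  have j3 : jacobiSym 3 7 = -1 := by norm_num
  have j4 : jacobiSym 4 7 = 1 := by norm_num
  have j5 : jacobiSym 5 7 = -1 := by norm_num
  have j6 : jacobiSym 6 7 = -1 := by norm_num
  have r1 : rn 7 1 = 1 := by
    unfold rn
    rw [d1]
    simp
  have r2 : rn 7 2 = 2 := by
    unfold rn
    rw [d2]
    simp [j1, j2]
    try norm_num
  have r3 : rn 7 3 = 0 := by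
    unfold rn
    rw [d3]
    simp [j1, j3]
  have r4 : rn 7 4 = 3 := by
    unfold rn
    rw [d4]
    simp [j1, j2, j4]
    try norm_num
  have r5 : rn 7 5 = 0 := by
    unfold rn
    rw [d5]
    simp [j1, j5]
  have r6 : rn 7 6 = 0 := by
    unfold rn
    rw [d6]
    simp [j1, j2, j3, j6]
  have s3 : sl 7 3 = -Real.log 3 := by
    unfold sl
    rw [d3]
    simp [j1, j3]
  have s5 : sl 7 5 = -Real.log 5 := by
    unfold sl
    rw [d5]
    simp [j1, j5]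
  have s6 : sl 7 6 = -2 * Real.log 3 := by
    have h : Real.log 6 = Real.log 2 + Real.log 3 := by
      rw [← Real.log_mul (by norm_num) (by norm_num)]
      norm_num
    unfold sl
    rw [d6]
    simp [j1, j2, j3, j6, h]
    ring
  unfold BB
  simp only [Finset.sum_range_succ, Finset.sum_range_zero]
  norm_num [r1, r2, r3, r4, r5, r6, s3, s5, s6]
  ring

/-- The constant in the formula. -/
noncomputable def Cst (χ : DirichletCharacter ℂ 7) : ℂ :=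
  (-2 * Real.eulerMascheroniConstant + Real.log (7 / (4 * Real.pi ^ 2))) / 2 +
    Real.sqrt 7 / Real.pi * deriv (DirichletCharacter.LFunction χ) 1

/-- The factor. -/
noncomputable def kap7 (r : ℕ) : ℝ :=
  4 * Real.pi / Real.sqrt 7 * (r.factorial : ℝ) * ((4 * Real.pi) ^ (r + 1))⁻¹

theorem kap7_pos (r : ℕ) : 0 < kap7 r := by
  have := Real.pi_pos
  unfold kap7
  positivity

section

variable {F : Type} [Field F] [NumberField F] {s : 𝓞 F} {σ : F →+* ℂ}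
  {χ : DirichletCharacter ℂ 7} {cj : 𝓞 F ≃+* 𝓞 F} {w r : ℕ} {ψ : Ideal (𝓞 F) →*₀ ℂ}
  {c : Reps σ}

theorem formula (h1 : StEqR) (h2 : StDT) (h3 : StClo) (h4 : StL1) (h5 : StSuA)
    (hd : DatD 7 s σ χ cj) (hcard : Fintype.card (ClassGroup (𝓞 F)) = 1)
    (hψ : ∀ a : Ideal (𝓞 F), a ≠ ⊥ → ψ a = 1)
    (hcop : ∀ A, IsCoprime (c.R A : Ideal (𝓞 F)) (Ideal.span {s}))
    (hw : w = 2 * r + 2) (hr : 4 ≤ r) (P : CuspForm 𝒮ℒ (w : ℤ))
    (hP : ∀ z : ℍ, P z = poinc w 1 z) :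
    deriv (fun t => rsD 7 (HN 7 χ 0 r ψ c t) P) (-r) = (kap7 r : ℂ) *
      ((harmonic r : ℂ) + Cst χ + ((BB 7 r - (-1) ^ r * (Real.log 7 / 2) -
        (AS 7 r + AI 7 r) / 2 : ℝ) : ℂ)) := by
  have hp : Nat.Prime 7 := by norm_num
  have i7 : NeZero 7 := ⟨by norm_num⟩
  have hψ' : IsHecke σ 0 ψ := fun t ht => by
    rw [pow_zero, hψ _ (by simpa using ht)]
  have hL := h4 7 i7 F _ _ s σ χ cj hd
  rw [hcard, Nat.cast_one, mul_one] at hL
  have hpi : (Real.pi : ℂ) ≠ 0 := by exact_mod_cast Real.pi_ne_zero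
  have hs7 : ((Real.sqrt 7 : ℝ) : ℂ) ≠ 0 := by
    exact_mod_cast (Real.sqrt_pos.2 (by norm_num : (0 : ℝ) < 7)).ne'
  have hL0 : DirichletCharacter.LFunction χ 1 ≠ 0 := by
    rw [hL]
    push_cast
    exact div_ne_zero hpi hs7
  have hr4 : (4 : ℝ) ≤ r := by exact_mod_cast hr
  have hopen : {t : ℂ | -(r : ℝ) - 1 / 4 < t.re ∧ t.re < -1} ∈ nhds (-(r : ℂ)) := by
    have ho : IsOpen {t : ℂ | -(r : ℝ) - 1 / 4 < t.re ∧ t.re < -1} :=
      (isOpen_lt continuous_const Complex.continuous_re).and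
        (isOpen_lt Complex.continuous_re continuous_const)
    refine ho.mem_nhds ⟨?_, ?_⟩
    · rw [Complex.neg_re, Complex.natCast_re]
      linarith
    · rw [Complex.neg_re, Complex.natCast_re]
      linarith
  obtain ⟨hT1, hT2⟩ := h2 7 i7 χ (EqRAux.chi_ne hd) hL0 0 r
  have hev : (fun t => rsD 7 (HN 7 χ 0 r ψ c t) P) =ᶠ[nhds (-(r : ℂ))]
      fun t => (T1 7 χ 0 r t + T2 7 χ 0 r t) + SUM 7 χ 0 r ψ c t := by
    filter_upwards [hopen] with t ht
    exact h1 7 i7 F _ _ s σ χ cj w 0 r ψ c P hd hp hψ' hcop (by omega) (by omega) hP t ht.1 ht.2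
  have hdT : DifferentiableAt ℂ (fun t => T1 7 χ 0 r t + T2 7 χ 0 r t) (-(r : ℂ)) := by
    refine hT1.differentiableAt (Filter.mem_of_superset hopen fun t ht => ?_)
    exact ⟨by linarith [ht.1], by linarith [ht.2]⟩
  have hdS : DifferentiableAt ℂ (SUM 7 χ 0 r ψ c) (-(r : ℂ)) :=
    (h5 7 i7 F _ _ s σ χ cj 0 r ψ c hd hp hψ').1.differentiableAt hopen
  have hadd := hdT.hasDerivAt.add hdS.hasDerivAt
  have e1 : deriv (fun t => rsD 7 (HN 7 χ 0 r ψ c t) P) (-(r : ℂ)) =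
      deriv (fun t => T1 7 χ 0 r t + T2 7 χ 0 r t) (-(r : ℂ)) +
        deriv (SUM 7 χ 0 r ψ c) (-(r : ℂ)) := by
    rw [hev.deriv_eq]
    exact hadd.deriv
  rw [e1, hT2, h3 7 i7 F _ _ s σ χ cj r ψ c hd hp hψ hr, hL, hcard]
  unfold kap7 Cst
  push_cast
  rw [show (0 + r) = r by ring]
  field_simp
  ring

/-- An eigenform from a Poincaré series. -/
theorem exists_of (h2 : StEigS) (h4 : StRSanN) (h5 : StTr0) (h6 : StRSN)
    (h7 : StDnN) (h8 : StEulN) (h11 : StPsiD) (h12 : StHN)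
    (h13 : StCoef) (h14 : StFd) {D k : ℕ} [hD0 : NeZero D] {χ : DirichletCharacter ℂ D}
    (hD : DatD D s σ χ cj) (hw : w = k + 2 * r + 2) (hr1 : 1 ≤ r) (hψ : IsHecke σ k ψ)
    (hcop : ∀ A, IsCoprime (c.R A : Ideal (𝓞 F)) (Ideal.span {s})) {P : CuspForm 𝒮ℒ (w : ℤ)}
    (hne : deriv (fun t => rsD D (HN D χ k r ψ c t) P) (-r) ≠ 0) :
    ∃ f : CuspForm 𝒮ℒ (w : ℤ), IsEigen f ∧
      ∃ Λ : ℂ → ℂ, DifferentiableOn ℂ Λ {z | -1 / 2 < z.re} ∧
        (∀ z : ℂ, 1 < z.re → HasProd (fun v : HeightOneSpectrum (𝓞 F) =>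
          (eulF f ψ (((w : ℂ) + k) / 2 + z) v)⁻¹) (Λ z)) ∧ Λ 0 = 0 ∧ deriv Λ 0 ≠ 0 := by
  obtain ⟨hk, -⟩ := h11 D F _ _ s σ χ cj k ψ hD hψ
  have hwe : Even w := by
    rw [hw]
    exact ((hk.add (even_two_mul r)).add even_two)
  obtain ⟨hspan, -⟩ := h2 w (by omega) hwe
  by_contra hcon
  push Not at hcon
  have hopen : IsOpen {t : ℂ | -(r : ℝ) - 1 / 2 < t.re} :=
    isOpen_lt continuous_const Complex.continuous_re
  have hmem : (-(r : ℂ)) ∈ {t : ℂ | -(r : ℝ) - 1 / 2 < t.re} := by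
    show -(r : ℝ) - 1 / 2 < (-(r : ℂ)).re
    rw [Complex.neg_re, Complex.natCast_re]
    linarith
  have hint : ∀ (f : CuspForm 𝒮ℒ (w : ℤ)) (t : ℂ), -(r : ℝ) - 1 / 2 < t.re →
      IntegrableOn (fun z : ℍ => trD D w (HN D χ k r ψ c t) z * f (ofComplex (-conj (z : ℂ))) *
        (z.im : ℂ) ^ w) ModularGroup.fd := fun f t ht =>
    MainRAux.integ h12 h14 h13 f ψ c hD hk hw hcop t ht
  have hall : ∀ f ∈ Submodule.span ℂ {f : CuspForm 𝒮ℒ (w : ℤ) | IsEigen f},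
      HasDerivAt (fun t => rsD D (HN D χ k r ψ c t) f) 0 (-r) := by
    intro f hf
    induction hf using Submodule.span_induction with
    | mem f hf =>
      have hd0 : deriv (fun t => rsD D (HN D χ k r ψ c t) f) (-r) = 0 := by
        by_contra hd
        obtain ⟨Λ, hΛ1, hΛ2, hΛ3, hΛ4⟩ := MainRAux.lam h5 h4 h6 h7 h8 f ψ c hD hf hw hψ hk hcop hd
        exact hΛ4 (hcon f hf Λ hΛ1 hΛ2 hΛ3)
      have hdiff : DifferentiableAt ℂ (fun t => rsD D (HN D χ k r ψ c t) f) (-r) :=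
        (h4 D hD0 F _ _ s σ χ cj w k r f ψ c hD hk hw hcop).differentiableAt
          (hopen.mem_nhds hmem)
      have h := hdiff.hasDerivAt
      rwa [hd0] at h
    | zero =>
      have e : (fun t => rsD D (HN D χ k r ψ c t) (0 : CuspForm 𝒮ℒ (w : ℤ))) = fun _ => 0 := by
        funext t
        have h := MainRAux.rsD_smul (D := D) (HN D χ k r ψ c t) 0 (0 : CuspForm 𝒮ℒ (w : ℤ))
        rwa [zero_smul, zero_mul] at h
      rw [e]
      exact hasDerivAt_const _ _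
    | add f g _ _ hf hg =>
      have h := hf.add hg
      rw [add_zero] at h
      refine h.congr_of_eventuallyEq ?_
      filter_upwards [hopen.mem_nhds hmem] with t ht
      exact MainRAux.rsD_add _ f g (hint f t ht) (hint g t ht)
    | smul a f _ hf =>
      have h := hf.const_mul a
      rw [mul_zero] at h
      refine h.congr_of_eventuallyEq (Filter.Eventually.of_forall fun t => ?_)
      exact MainRAux.rsD_smul _ a f
  have hPm : P ∈ Submodule.span ℂ {f : CuspForm 𝒮ℒ (w : ℤ) | IsEigen f} := by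
    rw [hspan]
    exact Submodule.mem_top
  exact hne (hall P hPm).deriv

/-- The integral against zero. -/
theorem deriv_zero {D k : ℕ} [NeZero D] (χ : DirichletCharacter ℂ D) (ψ : Ideal (𝓞 F) →*₀ ℂ)
    (c : Reps σ) {P : CuspForm 𝒮ℒ (w : ℤ)}
    (hP : P = 0) : deriv (fun t => rsD D (HN D χ k r ψ c t) P) (-r) = 0 := by
  have e : (fun t => rsD D (HN D χ k r ψ c t) P) = fun _ => 0 := by
    funext t
    have h := MainRAux.rsD_smul (D := D) (HN D χ k r ψ c t) 0 (0 : CuspForm 𝒮ℒ (w : ℤ))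
    rw [hP]
    rwa [zero_smul, zero_mul] at h
  rw [e, deriv_const]

end

end SevenA

open SevenA in
/-- (S6) -/
theorem stMain7 (h1 : StEqR) (h2 : StDT) (h3 : StClo) (h4 : StL1) (h5 : StSuA) (h6 : StAnt)
    (h7 : StLeg) (h8 : StCountD) (g1 : StPoi) (g2 : StEigS) (g4 : StRSanN) (g5 : StTr0)
    (g6 : StRSN) (g7 : StDnN) (g8 : StEulN) (g10 : StRepsD) (g11 : StPsiD) (g12 : StHN)
    (g13 : StCoef) (g14 : StFd) : StMain7 := by
  intro F _ _ s σ hF hs w r ψ hw hr hψ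
  have hs' : s ^ 2 = -((7 : ℕ) : F) := by exact_mod_cast hs
  have hodd : OddD 7 := ⟨(by norm_num : Nat.Prime 7).squarefree, by norm_num, by norm_num⟩
  obtain ⟨s', χ, cj, hD⟩ := MainDAux.exists_dat σ hodd hF hs'
  have i7 : NeZero 7 := ⟨by norm_num⟩
  obtain ⟨c, hcop⟩ := g10 7 F _ _ s' σ χ cj hD
  have hcard := ClA.class_seven hF hs
  have hψ1 := ClA.hecke_seven hF hs hψ
  have hk : ∀ r, (kap7 r : ℂ) ≠ 0 := fun r => by exact_mod_cast (kap7_pos r).ne'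
  have hpos : ∀ n : ℕ, 1 ≤ n → 0 ≤ rn 7 n := by
    intro n hn
    have h9 := h8 7 F _ _ s' σ χ cj hD n hn
    unfold rn
    rw [← h9]
    positivity
  -- the value of the constant
  have hbase : ∀ r₀ : ℕ, 4 ≤ r₀ → (∀ f : CuspForm 𝒮ℒ ((2 * r₀ + 2 : ℕ) : ℤ), f = 0) →
      (harmonic r₀ : ℂ) + Cst χ + ((BB 7 r₀ - (-1) ^ r₀ * (Real.log 7 / 2) -
        (AS 7 r₀ + AI 7 r₀) / 2 : ℝ) : ℂ) = 0 := by
    intro r₀ hr₀ h0
    obtain ⟨P, hP⟩ := g1 (2 * r₀ + 2) 1 (by omega) (by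
      exact (even_two_mul _).add even_two) le_rfl
    have h9 := formula h1 h2 h3 h4 h5 hD hcard hψ1 hcop rfl hr₀ P hP
    rw [deriv_zero χ ψ c (h0 P)] at h9
    exact (mul_eq_zero.1 h9.symm).resolve_left (hk r₀)
  have hmain : ∀ r₀ : ℕ, 4 ≤ r₀ → (∀ f : CuspForm 𝒮ℒ ((2 * r₀ + 2 : ℕ) : ℤ), f = 0) →
      r₀ ≤ r → W7 r₀ < W7 r → ∃ f : CuspForm 𝒮ℒ (w : ℤ), IsEigen f ∧
        ∃ Λ : ℂ → ℂ, DifferentiableOn ℂ Λ {z | -1 / 2 < z.re} ∧
          (∀ z : ℂ, 1 < z.re → HasProd (fun v : HeightOneSpectrum (𝓞 F) =>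
            (eulF f ψ ((w : ℂ) / 2 + z) v)⁻¹) (Λ z)) ∧ Λ 0 = 0 ∧ deriv Λ 0 ≠ 0 := by
    intro r₀ hr₀ h0 hle hW
    obtain ⟨P, hP⟩ := g1 w 1 (by omega) (by
      rw [hw]
      exact (even_two_mul _).add even_two) le_rfl
    have h9 := formula h1 h2 h3 h4 h5 hD hcard hψ1 hcop hw (hr₀.trans hle) P hP
    have h10 := hbase r₀ hr₀ h0
    have hne : deriv (fun t => rsD 7 (HN 7 χ 0 r ψ c t) P) (-r) ≠ 0 := by
      rw [h9]
      refine mul_ne_zero (hk r) fun h11 => ?_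
      have h12 : ((harmonic r : ℝ) + (BB 7 r - (-1) ^ r * (Real.log 7 / 2) -
          (AS 7 r + AI 7 r) / 2)) - ((harmonic r₀ : ℝ) + (BB 7 r₀ - (-1) ^ r₀ * (Real.log 7 / 2) -
          (AS 7 r₀ + AI 7 r₀) / 2)) = 0 := by
        have h13 : ((((harmonic r : ℝ) + (BB 7 r - (-1) ^ r * (Real.log 7 / 2) -
          (AS 7 r + AI 7 r) / 2)) - ((harmonic r₀ : ℝ) + (BB 7 r₀ - (-1) ^ r₀ *
            (Real.log 7 / 2) - (AS 7 r₀ + AI 7 r₀) / 2)) : ℝ) : ℂ) = 0 := by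
          rw [Complex.ofReal_sub, Complex.ofReal_add, Complex.ofReal_add]
          simp only [Complex.ofReal_ratCast]
          linear_combination h11 - h10
        exact_mod_cast h13
      obtain ⟨h14, h15⟩ := h6 7 (by norm_num) hpos r₀ r hr₀ hle
      unfold W7 at hW
      rw [BB_seven, BB_seven] at h12
      linarith
    obtain ⟨f, hf, Λ, hΛ1, hΛ2, hΛ3, hΛ4⟩ := exists_of g2 g4 g5 g6 g7 g8 g11 g12 g13 g14 (k := 0)
      hD (by omega : w = 0 + 2 * r + 2) (by omega) hψ hcop hne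
    refine ⟨f, hf, Λ, hΛ1, fun z hz => ?_, hΛ3, hΛ4⟩
    have h16 := hΛ2 z hz
    simpa using h16
  rcases hr with hr | hr
  · subst hr
    exact hmain 4 le_rfl zero_ten (by norm_num) h7.1
  · exact hmain 6 (by norm_num) zero_fourteen (by omega) (h7.2 r hr)

end RZ

end Pool.Agent.Lib.MP_7c08ba_nt
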