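import Mathlib
import Pool.Agent.Lib.MP_7c08ba_nt.RZ.S7.Main7
import Pool.Agent.Lib.MP_7c08ba_nt.RZ.SgG

set_option autoImplicit false

/-!
(S7) the class number formula `L(1, χ) = π h / √D`.
-/

namespace Pool.Agent.Lib.MP_7c08ba_nt

namespace RZ

open NumberField MeasureTheory UpperHalfPlane Set IsDedekindDomain
open scoped MatrixGroups ComplexConjugate nonZeroDivisors

theorem stL1 (h1 : StEisAD) (h2 : StEisLawD) (h3 : StThlD) (h4 : StIdSumD)
    (h5 : StCountD) (h6 : StBasD) (h7 : StThBD) (h8 : StRepsD) : StL1 := by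
  intro D _ F _ _ s σ χ cj hd
  obtain ⟨c, -⟩ := h8 D F _ _ s σ χ cj hd
  obtain ⟨hg, -⟩ := stSgG h1 h2 h3 h4 h5 h6 h7 h8 D inferInstance F _ _ s σ χ cj hd
  have hg1 : EisAt.gs D χ = 1 * (Complex.I * Real.sqrt D) := by
    rw [one_mul]
    exact hg
  rw [SgGAux.L_one h1 h2 h3 h4 h5 h6 h7 c hd hg1]
  push_cast
  ring

end RZ

end Pool.Agent.Lib.MP_7c08ba_nt
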