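import Mathlib
import Pool.Agent.Lib.MP_7c08ba_nt.RZ.StS7

set_option autoImplicit false

/-!
The inequality for the elementary function `W7`.
-/

namespace Pool.Agent.Lib.MP_7c08ba_nt

namespace RZ

namespace Legaux

/-- State of the summation: binomial coefficient and two sums of alternating terms. -/
def tt (a r : ℕ) : ℕ → ℕ × ℕ × ℕ
  | 0 => (1, a ^ r, 0)
  | i + 1 =>
    (fun s : ℕ × ℕ × ℕ => (fun c : ℕ => (c, s.2.2 + c ^ 2 * (7 - a) ^ (i + 1) * a ^ (r - (i + 1)), s.2.1))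
      (s.1 * (r - i) / (i + 1))) (tt a r i)

/-- Values of the Legendre polynomials at `a / 7`. -/
def jq (a r : ℕ) : ℚ :=
  if r % 2 = 0 then (((tt a r r).2.1 : ℚ) - ((tt a r r).2.2 : ℚ)) / (7 ^ r : ℕ)
  else (((tt a r r).2.2 : ℚ) - ((tt a r r).2.1 : ℚ)) / (7 ^ r : ℕ)

/-- Upper bound of a product with a number in an interval. -/
def ub (l u x : ℚ) : ℚ := if 0 ≤ x then u * x else l * x

/-- The test. -/
def okr (r0 r : ℕ) : Bool :=
  decide (0 < (harmonic r - harmonic r0) -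
    ub (10985 / 10000) (10987 / 10000) (2 * (jq 1 r - jq 1 r0) + 3 * (jq 4 r - jq 4 r0)) -
    ub (16093 / 10000) (16096 / 10000) (2 * (jq 2 r - jq 2 r0)) +
    if r % 2 = 0 then 0 else (19 : ℚ) / 10)

theorem okr_all : (∀ r : ℕ, r < 60 → 7 ≤ r → okr 6 r = true) := by
  decide +kernel

theorem okr_45 : okr 4 5 = true := by
  decide +kernel

theorem tt_fst (a r : ℕ) : ∀ i : ℕ, i ≤ r → (tt a r i).1 = r.choose i
  | 0, _ => by simp [tt]
  | i + 1, h => by
    have ih := tt_fst a r i (by omega)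
    have h1 := Nat.choose_succ_right_eq r i
    show (tt a r i).1 * (r - i) / (i + 1) = r.choose (i + 1)
    rw [ih, ← h1]
    exact Nat.mul_div_cancel _ (Nat.succ_pos i)

theorem tt_snd (a r : ℕ) (ha : a ≤ 7) : ∀ i : ℕ, i ≤ r →
    (((tt a r i).2.1 : ℚ) - ((tt a r i).2.2 : ℚ)) =
      (-1) ^ i * ∑ j ∈ Finset.range (i + 1),
        (r.choose j : ℚ) * (r.choose j : ℚ) * ((a : ℚ) - 7) ^ j * (a : ℚ) ^ (r - j)
  | 0, _ => by simp [tt]
  | i + 1, h => by
    have ih := tt_snd a r ha i (by omega)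
    have hc := tt_fst a r (i + 1) h
    have h1 : (tt a r (i + 1)).2.1 = (tt a r i).2.2 +
        (tt a r (i + 1)).1 ^ 2 * (7 - a) ^ (i + 1) * a ^ (r - (i + 1)) := rfl
    have h2 : (tt a r (i + 1)).2.2 = (tt a r i).2.1 := rfl
    rw [h1, h2, hc, Finset.sum_range_succ, mul_add]
    have h3 : ((7 - a : ℕ) : ℚ) = -((a : ℚ) - 7) := by
      rw [Nat.cast_sub ha]
      push_cast
      ring
    push_cast
    rw [h3, neg_pow ((a : ℚ) - 7) (i + 1), pow_succ (-1 : ℚ) i]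
    linear_combination (-1 : ℚ) * ih

theorem jq_eq (a r : ℕ) (ha : a ≤ 7) : ((jq a r : ℚ) : ℝ) = Jac 0 r ((a : ℝ) / 7) := by
  have h1 := tt_snd a r ha r le_rfl
  have h2 : jq a r = (∑ j ∈ Finset.range (r + 1),
        (r.choose j : ℚ) * (r.choose j : ℚ) * ((a : ℚ) - 7) ^ j * (a : ℚ) ^ (r - j)) / 7 ^ r := by
    unfold jq
    split_ifs with h
    · have he : Even r := Nat.even_iff.mpr h
      rw [h1, he.neg_one_pow, one_mul]
      push_cast
      rfl
    · have ho : Odd r := Nat.odd_iff.mpr (by omega)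
      have h3 : (((tt a r r).2.2 : ℚ) - ((tt a r r).2.1 : ℚ)) =
          -(((tt a r r).2.1 : ℚ) - ((tt a r r).2.2 : ℚ)) := by ring
      rw [h3, h1, ho.neg_one_pow]
      push_cast
      ring
  rw [h2, Jac]
  push_cast
  rw [Finset.sum_div]
  refine Finset.sum_congr rfl fun j hj => ?_
  have hj : j ≤ r := by
    rw [Finset.mem_range] at hj
    omega
  rw [Nat.zero_add]
  have h4 : (7 : ℝ) ^ r = 7 ^ j * 7 ^ (r - j) := by
    rw [← pow_add]
    congr 1
    omega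
  have h5 : ((a : ℝ) / 7 - 1) = ((a : ℝ) - 7) / 7 := by ring
  rw [h4, h5, div_pow, div_pow]
  field_simp

theorem ub_le (l u x : ℚ) (t : ℝ) (h1 : ((l : ℚ) : ℝ) ≤ t) (h2 : t ≤ ((u : ℚ) : ℝ)) :
    t * ((x : ℚ) : ℝ) ≤ ((ub l u x : ℚ) : ℝ) := by
  unfold ub
  split_ifs with h
  · have h' : (0 : ℝ) ≤ ((x : ℚ) : ℝ) := by exact_mod_cast h
    push_cast
    exact mul_le_mul_of_nonneg_right h2 h'
  · have h' : ((x : ℚ) : ℝ) ≤ 0 := by
      have : x ≤ 0 := le_of_lt (not_le.mp h)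
      exact_mod_cast this
    push_cast
    exact mul_le_mul_of_nonpos_right h1 h'

theorem log3 : (1.0985 : ℝ) ≤ Real.log 3 ∧ Real.log 3 ≤ 1.0987 := by
  have h1 := Real.abs_log_sub_add_sum_range_le (x := (1 / 4 : ℝ)) (by norm_num [abs_lt]) 8
  have h2 : Real.log 3 = 2 * Real.log 2 + Real.log (1 - 1 / 4) := by
    have h3 : (3 : ℝ) = 2 ^ 2 * (1 - 1 / 4) := by norm_num
    have h4 : Real.log 3 = Real.log (2 ^ 2 * (1 - 1 / 4)) := by rw [← h3]
    rw [h4, Real.log_mul (by norm_num) (by norm_num), Real.log_pow]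
    norm_num
  have h5 := Real.log_two_gt_d9
  have h6 := Real.log_two_lt_d9
  rw [abs_le] at h1
  norm_num [Finset.sum_range_succ] at h1
  rw [h2]
  norm_num
  constructor <;> linarith [h1.1, h1.2]

theorem log5 : (1.6093 : ℝ) ≤ Real.log 5 ∧ Real.log 5 ≤ 1.6096 := by
  have h1 := Real.abs_log_sub_add_sum_range_le (x := (-1 / 4 : ℝ)) (by norm_num [abs_lt]) 8
  have h2 : Real.log 5 = 2 * Real.log 2 + Real.log (1 - (-1 / 4)) := by
    have h3 : (5 : ℝ) = 2 ^ 2 * (1 - (-1 / 4)) := by norm_num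
    have h4 : Real.log 5 = Real.log (2 ^ 2 * (1 - (-1 / 4))) := by rw [← h3]
    rw [h4, Real.log_mul (by norm_num) (by norm_num), Real.log_pow]
    norm_num
  have h5 := Real.log_two_gt_d9
  have h6 := Real.log_two_lt_d9
  rw [abs_le] at h1
  norm_num [Finset.sum_range_succ] at h1
  rw [h2]
  norm_num
  constructor <;> linarith [h1.1, h1.2]

theorem log7 : (1.9 : ℝ) ≤ Real.log 7 := by
  have h1 := Real.abs_log_sub_add_sum_range_le (x := (1 / 8 : ℝ)) (by norm_num [abs_lt]) 4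
  have h2 : Real.log 7 = 3 * Real.log 2 + Real.log (1 - 1 / 8) := by
    have h3 : (7 : ℝ) = 2 ^ 3 * (1 - 1 / 8) := by norm_num
    have h4 : Real.log 7 = Real.log (2 ^ 3 * (1 - 1 / 8)) := by rw [← h3]
    rw [h4, Real.log_mul (by norm_num) (by norm_num), Real.log_pow]
    norm_num
  have h5 := Real.log_two_gt_d9
  have h6 := Real.log_two_lt_d9
  rw [abs_le] at h1
  norm_num [Finset.sum_range_succ] at h1
  rw [h2]
  norm_num
  linarith [h1.1, h1.2]

theorem of_okr (r0 r : ℕ) (hr0 : r0 % 2 = 0) (h : okr r0 r = true) : W7 r0 < W7 r := by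
  unfold okr at h
  rw [decide_eq_true_eq] at h
  have e0 : ((-1 : ℝ)) ^ r0 = 1 := (Nat.even_iff.mpr hr0).neg_one_pow
  have a1 : ((1 : ℕ) : ℝ) = 1 := by norm_num
  have a2 : ((2 : ℕ) : ℝ) = 2 := by norm_num
  have a4 : ((4 : ℕ) : ℝ) = 4 := by norm_num
  have j1 := jq_eq 1 r (by norm_num)
  have j2 := jq_eq 2 r (by norm_num)
  have j4 := jq_eq 4 r (by norm_num)
  have k1 := jq_eq 1 r0 (by norm_num)
  have k2 := jq_eq 2 r0 (by norm_num)
  have k4 := jq_eq 4 r0 (by norm_num)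
  rw [a1] at j1 k1
  rw [a2] at j2 k2
  rw [a4] at j4 k4
  have b3 := ub_le (10985 / 10000) (10987 / 10000) (2 * (jq 1 r - jq 1 r0) +
    3 * (jq 4 r - jq 4 r0)) (Real.log 3) (by push_cast; linarith [log3.1]; )
    (by push_cast; linarith [log3.2])
  have b5 := ub_le (16093 / 10000) (16096 / 10000) (2 * (jq 2 r - jq 2 r0)) (Real.log 5)
    (by push_cast; linarith [log5.1]) (by push_cast; linarith [log5.2])
  have l7 := log7
  have h' : (0 : ℝ) < (((harmonic r - harmonic r0) -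
    ub (10985 / 10000) (10987 / 10000) (2 * (jq 1 r - jq 1 r0) + 3 * (jq 4 r - jq 4 r0)) -
    ub (16093 / 10000) (16096 / 10000) (2 * (jq 2 r - jq 2 r0)) +
    if r % 2 = 0 then 0 else (19 : ℚ) / 10 : ℚ) : ℝ) := by exact_mod_cast h
  unfold W7
  rw [← j1, ← j2, ← j4, ← k1, ← k2, ← k4, e0]
  by_cases hr : r % 2 = 0
  · rw [if_pos hr] at h'
    rw [(Nat.even_iff.mpr hr).neg_one_pow]
    push_cast at h' b3 b5
    nlinarith [h', b3, b5]
  · rw [if_neg hr] at h'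
    rw [(Nat.odd_iff.mpr (by omega)).neg_one_pow]
    push_cast at h' b3 b5
    nlinarith [h', b3, b5, l7]

theorem harm_mono (r : ℕ) (hr : 60 ≤ r) : harmonic 60 ≤ harmonic r := by
  unfold harmonic
  refine Finset.sum_le_sum_of_subset_of_nonneg ?_ fun i _ _ => by positivity
  exact Finset.range_mono hr

theorem h606 : (2229 : ℚ) / 1000 ≤ harmonic 60 - harmonic 6 := by
  decide +kernel

theorem j6 : (-9033 : ℚ) / 10000 ≤ 2 * jq 1 6 + 3 * jq 4 6 ∧ (636 : ℚ) / 1000 ≤ 2 * jq 2 6 := by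
  decide +kernel

end Legaux

open Legaux in
/-- (S5) the inequality for `D = 7` -/
theorem stLeg (h : StJB) : StLeg := by
  refine ⟨of_okr 4 5 (by norm_num) okr_45, fun r hr => ?_⟩
  by_cases h60 : r < 60
  · exact of_okr 6 r (by norm_num) (okr_all r h60 hr)
  rw [not_lt] at h60
  obtain ⟨c1, c2, c4⟩ := h r h60
  rw [abs_le] at c1 c2 c4
  have hh : (2229 : ℚ) / 1000 ≤ harmonic r - harmonic 6 := by
    have := harm_mono r h60
    have := h606
    linarith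
  have hh' : (2229 : ℝ) / 1000 ≤ (harmonic r : ℝ) - (harmonic 6 : ℝ) := by
    have h1 := (Rat.cast_le (K := ℝ)).mpr hh
    push_cast at h1
    exact h1
  have a1 : ((1 : ℕ) : ℝ) = 1 := by norm_num
  have a2 : ((2 : ℕ) : ℝ) = 2 := by norm_num
  have a4 : ((4 : ℕ) : ℝ) = 4 := by norm_num
  have k1 := jq_eq 1 6 (by norm_num)
  have k2 := jq_eq 2 6 (by norm_num)
  have k4 := jq_eq 4 6 (by norm_num)
  rw [a1] at k1
  rw [a2] at k2
  rw [a4] at k4
  obtain ⟨d1, d2⟩ := j6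
  have d1' : (-9033 : ℝ) / 10000 ≤ 2 * ((jq 1 6 : ℚ) : ℝ) + 3 * ((jq 4 6 : ℚ) : ℝ) := by
    have h1 := (Rat.cast_le (K := ℝ)).mpr d1
    push_cast at h1
    exact h1
  have d2' : (636 : ℝ) / 1000 ≤ 2 * ((jq 2 6 : ℚ) : ℝ) := by
    have h1 := (Rat.cast_le (K := ℝ)).mpr d2
    push_cast at h1
    exact h1
  rw [k1, k4] at d1'
  rw [k2] at d2'
  obtain ⟨l3, u3⟩ := log3
  obtain ⟨l5, u5⟩ := log5
  have l7 := log7
  have e6 : ((-1 : ℝ)) ^ 6 = 1 := by norm_num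
  have er : ((-1 : ℝ)) ^ r ≤ 1 := by
    rcases neg_one_pow_eq_or ℝ r with h1 | h1 <;> rw [h1]
    norm_num
  have m1 : Real.log 3 * Jac 0 r (1 / 7) ≤ 1.0987 / 4 := by
    nlinarith [c1.1, c1.2]
  have m2 : Real.log 5 * Jac 0 r (2 / 7) ≤ 1.6096 / 4 := by
    nlinarith [c2.1, c2.2]
  have m4 : Real.log 3 * Jac 0 r (4 / 7) ≤ 1.0987 / 4 := by
    nlinarith [c4.1, c4.2]
  have m5 : -0.9925 ≤ Real.log 3 * (2 * Jac 0 6 (1 / 7) + 3 * Jac 0 6 (4 / 7)) := by
    nlinarith [d1']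
  have m6 : 1.0235 ≤ Real.log 5 * (2 * Jac 0 6 (2 / 7)) := by
    nlinarith [d2']
  have m7 : (-1 : ℝ) ^ r * (Real.log 7 / 2) ≤ Real.log 7 / 2 := by
    nlinarith [er, l7]
  unfold W7
  rw [e6]
  norm_num at m1 m2 m4 m5 m6
  linarith [m1, m2, m4, m5, m6, m7, hh']

end RZ

end Pool.Agent.Lib.MP_7c08ba_nt
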