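import Mathlib
import Pool.Agent.Lib.MP_7c08ba_nt.RZ.AllR
import Pool.Agent.Lib.MP_7c08ba_nt.RZ.S7.L1
import Pool.Agent.Lib.MP_7c08ba_nt.RZ.S7.Clo
import Pool.Agent.Lib.MP_7c08ba_nt.RZ.S7.Ant
import Pool.Agent.Lib.MP_7c08ba_nt.RZ.S7.Leg
import Pool.Agent.Lib.MP_7c08ba_nt.RZ.S7.JB
import Pool.Agent.Lib.MP_7c08ba_nt.RZ.S7.KpE

set_option autoImplicit false

/-!
Assembly of the analytic part for the field of discriminant `-7`.
-/

namespace Pool.Agent.Lib.MP_7c08ba_nt

namespace RZ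

theorem aL1 : StL1 := stL1 aEisAD aEisLawD aThlD aIdSumD aCountD aBasD aThBD aRepsD

theorem aAnt : StAnt := stAnt

theorem aJB : StJB := stJB

theorem aLeg : StLeg := stLeg aJB

theorem aKpE : StKpE := stKpE aKpV

theorem aClo : StClo := stClo aSuA aKpV aKpE aCountD aKpA

/-- **`Q(√-7)`**: in every weight with a cusp form there is an eigenform with an `L`-function
vanishing to order exactly one. -/
theorem aMain7 : StMain7 :=
  stMain7 aEqR aDT aClo aL1 aSuA aAnt aLeg aCountD aPoi aEigS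
    aRSanN aTr0 aRSN aDnN aEulN aRepsD aPsiD aHN aCoef aFd

end RZ

end Pool.Agent.Lib.MP_7c08ba_nt
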